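import Pool.Agent.Lib.MP_08e64a_al.Defs

/-!
Algebraic compactness, its equivalence with pure-injectivity, and hulls of single elements.
-/

namespace Pool.Agent.Lib.MP_08e64a_al

universe u

section

variable {R : Type u} [Ring R]

/-- Evaluate a linear form in the variables `X` at an assignment `z`. -/
noncomputable abbrev lin {M : Type u} [AddCommGroup M] [Module R M] {X : Type u} (z : X → M) :
    (X →₀ R) →ₗ[R] M :=
  Finsupp.linearCombination R z

lemma lin_comp {M N : Type u} [AddCommGroup M] [Module R M] [AddCommGroup N] [Module R N]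
    {X : Type u} (z : X → M) (g : M →ₗ[R] N) (k : X →₀ R) :
    lin (fun x => g (z x)) k = g (lin z k) := by
  simp only [lin, Finsupp.linearCombination_apply, Finsupp.sum, map_sum, map_smul]

lemma lin_eq_sum {M : Type u} [AddCommGroup M] [Module R M] {X : Type u} (z : X → M)
    (k : X →₀ R) (s : Finset X) (hs : k.support ⊆ s) : lin z k = ∑ x ∈ s, k x • z x := by
  simp only [lin, Finsupp.linearCombination_apply]
  exact Finsupp.sum_of_support_subset k hs _ (by simp)

/-- Every finitely solvable system of linear equations is solvable. -/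
def AlgCompact (R : Type u) [Ring R] (M : Type u) [AddCommGroup M] [Module R M] : Prop :=
  ∀ (X J : Type u) (k : J → X →₀ R) (m : J → M),
    (∀ J0 : Finset J, ∃ z : X → M, ∀ j ∈ J0, lin z (k j) = m j) →
      ∃ z : X → M, ∀ j, lin z (k j) = m j

variable {M : Type u} [AddCommGroup M] [Module R M]

theorem algCompact_of_compact [TopologicalSpace M] [CompactSpace M] [T2Space M]
    [ContinuousAdd M] (hc : ∀ r : R, Continuous fun x : M => r • x) : AlgCompact R M := by
  intro X J k m h
  have hcl : ∀ j, IsClosed {z : X → M | lin z (k j) = m j} := by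
    intro j
    refine isClosed_eq ?_ continuous_const
    simp only [lin, Finsupp.linearCombination_apply, Finsupp.sum]
    exact continuous_finsetSum _ fun x _ => (hc _).comp (continuous_apply x)
  have := (isCompact_univ (X := X → M)).inter_iInter_nonempty
    (fun j => {z : X → M | lin z (k j) = m j}) hcl (by
      intro J0
      obtain ⟨z, hz⟩ := h J0
      refine ⟨z, Set.mem_univ _, ?_⟩
      simp only [Set.mem_iInter]
      exact fun j hj => hz j hj)
  obtain ⟨z, -, hz⟩ := this
  simp only [Set.mem_iInter] at hz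
  exact ⟨z, hz⟩

theorem ext_of_algCompact (hM : AlgCompact R M) (L : Type u) [AddCommGroup L] [Module R L]
    (J : Type u) (l : J → L) (m : J → M)
    (h : ∀ (J0 : Finset J) (K0 : Finset (L →₀ R)), (∀ k ∈ K0, lin (fun x : L => x) k = 0) →
      ∃ z : L → M, (∀ k ∈ K0, lin z k = 0) ∧ ∀ j ∈ J0, z (l j) = m j) :
    ∃ g : L →ₗ[R] M, ∀ j, g (l j) = m j := by
  classical
  let K := {k : L →₀ R // lin (fun x : L => x) k = 0}
  obtain ⟨z, hz⟩ := hM L (K ⊕ J)
    (Sum.elim (fun k => k.1) (fun j => Finsupp.single (l j) 1)) (Sum.elim (fun _ => 0) m) (by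
      intro J0
      obtain ⟨z, hz1, hz2⟩ := h J0.toRight (J0.toLeft.image Subtype.val) (by
        intro k hk
        obtain ⟨k', -, rfl⟩ := Finset.mem_image.1 hk
        exact k'.2)
      refine ⟨z, ?_⟩
      rintro (k | j) hj
      · exact hz1 _ (Finset.mem_image.2 ⟨k, by simpa using hj, rfl⟩)
      · simpa [lin] using hz2 j (by simpa using hj))
  have hker : ∀ k : L →₀ R, lin (fun x : L => x) k = 0 → lin z k = 0 :=
    fun k hk => hz (Sum.inl ⟨k, hk⟩)
  refine ⟨{ toFun := z, map_add' := ?_, map_smul' := ?_ }, fun j => ?_⟩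
  · intro x y
    have := hker (Finsupp.single (x + y) 1 - Finsupp.single x 1 - Finsupp.single y 1)
      (by simp [lin])
    simp only [lin, map_sub, Finsupp.linearCombination_single, one_smul] at this
    rw [sub_sub, sub_eq_zero] at this
    exact this
  · intro r x
    have := hker (Finsupp.single (r • x) 1 - Finsupp.single x r) (by simp [lin])
    simp only [lin, map_sub, Finsupp.linearCombination_single, one_smul] at this
    rw [sub_eq_zero] at this
    exact this
  · simpa [lin] using hz (Sum.inr j)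

theorem homCompact (hM : AlgCompact R M) (L : Type u) [AddCommGroup L] [Module R L]
    (J : Type u) (l : J → L) (m : J → M)
    (h : ∀ J0 : Finset J, ∃ g : L →ₗ[R] M, ∀ j ∈ J0, g (l j) = m j) :
    ∃ g : L →ₗ[R] M, ∀ j, g (l j) = m j := by
  refine ext_of_algCompact hM L J l m fun J0 K0 hK => ?_
  obtain ⟨g, hg⟩ := h J0
  refine ⟨g, fun k hk => ?_, hg⟩
  have := lin_comp (fun x : L => x) g k
  rw [hK k hk, map_zero] at this
  exact this

theorem pure_fintype {A B : Type u} [AddCommGroup A] [Module R A] [AddCommGroup B]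
    [Module R B] {i : A →ₗ[R] B} (hi : IsPureEmb i) {I L J : Type*} [Fintype I] [Fintype L]
    [Fintype J] (a : J → I → R) (b : J → L → R) (x : I → A) (y : L → B)
    (hy : ∀ j, ∑ s, a j s • i (x s) + ∑ l, b j l • y l = 0) :
    ∃ y' : L → A, ∀ j, ∑ s, a j s • x s + ∑ l, b j l • y' l = 0 := by
  let eI := Fintype.equivFin I
  let eL := Fintype.equivFin L
  let eJ := Fintype.equivFin J
  let φ : PP R (Fintype.card I) :=
    { m := Fintype.card L, k := Fintype.card J
      A := fun j s => a (eJ.symm j) (eI.symm s)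
      B := fun j l => b (eJ.symm j) (eL.symm l) }
  obtain ⟨y', hy'⟩ := hi.2 _ φ (fun s => x (eI.symm s)) ⟨fun l => y (eL.symm l), fun j => by
    have := hy (eJ.symm j)
    rw [← eI.symm.sum_comp, ← eL.symm.sum_comp] at this
    exact this⟩
  refine ⟨fun l => y' (eL l), fun j => ?_⟩
  have := hy' (eJ j)
  rw [← eI.sum_comp, ← eL.sum_comp] at this
  simpa [φ] using this

theorem pureInjective_of_algCompact (hM : AlgCompact R M) : PureInjective R M := by
  classical
  intro A B _ _ _ _ i hi f
  obtain ⟨g, hg⟩ := ext_of_algCompact hM B A (fun a => i a) (fun a => f a) (by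
    intro J0 K0 hK
    let Bs : Finset B := K0.biUnion Finsupp.support ∪ J0.image i
    obtain ⟨y', hy'⟩ := pure_fintype hi (I := J0) (L := Bs) (J := K0 ⊕ J0)
      (Sum.elim (fun _ _ => 0) (fun a s => if s = a then -1 else 0))
      (Sum.elim (fun k b => k.1 b.1) (fun a b => if b.1 = i a.1 then 1 else 0))
      (fun s => s.1) (fun b => b.1) (by
        rintro (k | a)
        · have h1 := hK k.1 k.2
          rw [lin_eq_sum _ _ Bs (fun b hb => Finset.mem_union_left _
            (Finset.mem_biUnion.2 ⟨k.1, k.2, hb⟩)), ← Finset.sum_coe_sort] at h1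
          simpa using h1
        · have hmem : i a.1 ∈ Bs := Finset.mem_union_right _ (Finset.mem_image_of_mem _ a.2)
          have e1 : ∑ b : Bs, (if b.1 = i a.1 then (1 : R) else 0) • b.1 = i a.1 := by
            rw [Finset.sum_eq_single ⟨i a.1, hmem⟩]
            · simp
            · intro b _ hb
              have : b.1 ≠ i a.1 := fun h => hb (Subtype.ext h)
              simp [this]
            · simp
          simp only [Sum.elim_inr]
          rw [e1]
          simp [ite_smul])
    refine ⟨fun b => if h : b ∈ Bs then f (y' ⟨b, h⟩) else 0, fun k hk => ?_, fun a ha => ?_⟩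
    · rw [lin_eq_sum _ _ Bs (fun b hb => Finset.mem_union_left _
        (Finset.mem_biUnion.2 ⟨k, hk, hb⟩)), ← Finset.sum_coe_sort]
      have := congrArg f (hy' (Sum.inl ⟨k, hk⟩))
      simpa [map_sum] using this
    · have hmem : i a ∈ Bs := Finset.mem_union_right _ (Finset.mem_image_of_mem _ ha)
      have h1 := hy' (Sum.inr ⟨a, ha⟩)
      have e1 : ∑ b : Bs, (if b.1 = i a then (1 : R) else 0) • y' b = y' ⟨i a, hmem⟩ := by
        rw [Finset.sum_eq_single ⟨i a, hmem⟩]
        · simp
        · intro b _ hb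
          have : b.1 ≠ i a := fun h => hb (Subtype.ext h)
          simp [this]
        · simp
      simp only [Sum.elim_inr] at h1
      rw [e1] at h1
      have h2 : y' ⟨i a, hmem⟩ = a := by
        simp only [ite_smul, neg_smul, one_smul, zero_smul, Finset.sum_ite_eq',
          Finset.mem_univ, if_true] at h1
        exact (neg_add_eq_zero.1 h1).symm
      simp only [hmem, dif_pos, h2])
  exact ⟨g, LinearMap.ext hg⟩

theorem algCompact_of_pureInjective (hM : PureInjective R M) : AlgCompact R M := by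
  classical
  intro X J k m h
  let gen : J → M × (X →₀ R) := fun j => (m j, -k j)
  let N : Submodule R (M × (X →₀ R)) := Submodule.span R (Set.range gen)
  let i : M →ₗ[R] (M × (X →₀ R)) ⧸ N := N.mkQ ∘ₗ LinearMap.inl R M (X →₀ R)
  have key : ∀ s : Finset (M × (X →₀ R)), (∀ w ∈ s, w ∈ N) →
      ∃ p : M × (X →₀ R) →ₗ[R] M, (∀ x, p (x, 0) = x) ∧ ∀ w ∈ s, p w = 0 := by
    intro s hs
    have hc : ∀ w : s, ∃ c : J →₀ R, c.sum (fun j r => r • gen j) = w.1 := fun w =>
      Finsupp.mem_span_range_iff_exists_finsupp.1 (hs w.1 w.2)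
    choose c hc using hc
    obtain ⟨z, hz⟩ := h (Finset.univ.biUnion fun w => (c w).support)
    refine ⟨LinearMap.coprod LinearMap.id (lin z), fun x => by simp, fun w hw => ?_⟩
    have := hc ⟨w, hw⟩
    simp only at this
    rw [← this, Finsupp.sum, map_sum]
    refine Finset.sum_eq_zero fun j hj => ?_
    rw [map_smul]
    have h2 := hz j (Finset.mem_biUnion.2 ⟨⟨w, hw⟩, Finset.mem_univ _, hj⟩)
    simp [gen, h2]
  have hi : IsPureEmb i := by
    constructor
    · rw [injective_iff_map_eq_zero]
      intro x hx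
      have hx' : (x, (0 : X →₀ R)) ∈ N := (Submodule.Quotient.mk_eq_zero N).1 hx
      obtain ⟨p, hp1, hp2⟩ := key {(x, 0)} (by simpa using hx')
      rw [← hp1 x]
      exact hp2 _ (by simp)
    · rintro n φ x ⟨y, hy⟩
      choose y' hy' using fun l => N.mkQ_surjective (y l)
      let w : Fin φ.k → M × (X →₀ R) := fun j =>
        ∑ s, φ.A j s • ((x s, 0) : M × (X →₀ R)) + ∑ l, φ.B j l • y' l
      have hw : ∀ j, w j ∈ N := by
        intro j
        rw [← Submodule.Quotient.mk_eq_zero, ← Submodule.mkQ_apply]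
        have := hy j
        simp only [w, map_add, map_sum, map_smul, hy']
        exact this
      obtain ⟨p, hp1, hp2⟩ := key (Finset.univ.image w) (by
        intro v hv
        obtain ⟨j, -, rfl⟩ := Finset.mem_image.1 hv
        exact hw j)
      refine ⟨fun l => p (y' l), fun j => ?_⟩
      have := hp2 (w j) (Finset.mem_image_of_mem _ (Finset.mem_univ j))
      simpa only [w, map_add, map_sum, map_smul, hp1] using this
  obtain ⟨g, hg⟩ := hM M _ i hi LinearMap.id
  let q : (X →₀ R) →ₗ[R] M := g ∘ₗ N.mkQ ∘ₗ LinearMap.inr R M (X →₀ R)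
  refine ⟨fun x => q (Finsupp.single x 1), fun j => ?_⟩
  rw [lin_comp (fun x => Finsupp.single x (1 : R)) q]
  have e1 : lin (fun x => Finsupp.single x (1 : R)) (k j) = k j := by
    simp [lin, Finsupp.linearCombination_apply]
  rw [e1]
  have e2 : N.mkQ (0, k j) = N.mkQ (m j, 0) := by
    rw [Submodule.mkQ_apply, Submodule.mkQ_apply, eq_comm, Submodule.Quotient.eq]
    refine Submodule.subset_span ⟨j, ?_⟩
    simp [gen]
  have e3 : g (i (m j)) = m j := congrArg (fun f => f (m j)) hg
  simp only [q, LinearMap.comp_apply, LinearMap.inr_apply, e2]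
  exact e3

theorem pureInjective_range (hM : PureInjective R M) (e : M →ₗ[R] M)
    (he : ∀ x, e (e x) = e x) : PureInjective R (LinearMap.range e) := by
  intro A B _ _ _ _ i hi f
  obtain ⟨g, hg⟩ := hM A B i hi ((LinearMap.range e).subtype ∘ₗ f)
  refine ⟨e.rangeRestrict ∘ₗ g, LinearMap.ext fun a => Subtype.ext ?_⟩
  have h1 : g (i a) = (f a).1 := congrArg (fun f => f a) hg
  obtain ⟨y, hy⟩ := (f a).2
  simp only [LinearMap.comp_apply, LinearMap.codRestrict_apply, LinearMap.rangeRestrict, h1]
  rw [← hy, he]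

/-- The hull of one element of an algebraically compact module. -/
theorem exists_hull (hM : AlgCompact R M) (a : M) :
    ∃ e : M →ₗ[R] M, e a = a ∧ (∀ x, e (e x) = e x) ∧
      ∀ h : M →ₗ[R] M, h a = a → ∀ x, h (e x) = 0 → e x = 0 := by
  classical
  let small : Set M → Prop := fun B =>
    ∀ h : M →ₗ[R] M, h a = a → ∃ u : M →ₗ[R] M, ∀ b ∈ B, u (h b) = b
  obtain ⟨B, haB, hB⟩ := zorn_subset_nonempty {B | small B} (by
    intro c hc hchain hne
    refine ⟨⋃₀ c, ?_, fun s hs => Set.subset_sUnion_of_mem hs⟩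
    intro h hh
    obtain ⟨g, hg⟩ := homCompact hM M (⋃₀ c : Set M) (fun b => h b.1) (fun b => b.1) (by
      intro J0
      have hdir : DirectedOn (· ⊆ ·) c := hchain.directedOn
      obtain ⟨s, hs, hJ⟩ : ∃ s ∈ c, ∀ b ∈ J0, b.1 ∈ s := by
        induction J0 using Finset.induction_on with
        | empty => obtain ⟨s, hs⟩ := hne; exact ⟨s, hs, by simp⟩
        | insert b J0 _ ih =>
          obtain ⟨s, hs, hJ⟩ := ih
          obtain ⟨s', hs', hb⟩ := b.2
          obtain ⟨s'', hs'', h1, h2⟩ := hdir s hs s' hs'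
          refine ⟨s'', hs'', fun b' hb' => ?_⟩
          rcases Finset.mem_insert.1 hb' with rfl | hb'
          · exact h2 hb
          · exact h1 (hJ b' hb')
      obtain ⟨u, hu⟩ := hc hs h hh
      exact ⟨u, fun b hb => hu _ (hJ b hb)⟩)
    exact ⟨g, fun b hb => hg ⟨b, hb⟩⟩) {a} (by
      intro h hh
      exact ⟨LinearMap.id, fun b hb => by rw [Set.mem_singleton_iff.1 hb, hh]; rfl⟩)
  let E := {e : M →ₗ[R] M // ∀ b ∈ B, e b = b}
  let r : E → E → Prop := fun e e' => ∃ u : M →ₗ[R] M, ∀ x, u (e.1 x) = e'.1 x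
  have rtrans : ∀ {x y z : E}, r x y → r y z → r x z := by
    rintro x y z ⟨u, hu⟩ ⟨v, hv⟩
    exact ⟨v ∘ₗ u, fun n => by simp [hu, hv]⟩
  have rrefl : ∀ x : E, r x x := fun x => ⟨LinearMap.id, fun _ => rfl⟩
  obtain ⟨e, he⟩ := exists_maximal_of_chains_bounded (r := r) (by
    intro c hc
    rcases c.eq_empty_or_nonempty with rfl | ⟨e0, he0⟩
    · exact ⟨⟨LinearMap.id, fun _ _ => rfl⟩, by simp⟩
    obtain ⟨g, hg⟩ := homCompact hM (c →₀ M) ((c × M) ⊕ B)
      (Sum.elim (fun p => Finsupp.single p.1 (p.1.1.1 p.2) -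
          Finsupp.single (⟨e0, he0⟩ : c) (e0.1 p.2))
        (fun b => Finsupp.single (⟨e0, he0⟩ : c) b.1))
      (Sum.elim (fun _ => 0) (fun b => b.1)) (by
        intro J0
        obtain ⟨k, hk0, hk⟩ : ∃ k : E, r e0 k ∧ ∀ p ∈ J0.toLeft, r p.1.1 k := by
          have : ∀ s : Finset (c × M), ∃ k ∈ c, r e0 k ∧ ∀ p ∈ s, r p.1.1 k := by
            intro s
            induction s using Finset.induction_on with
            | empty => exact ⟨e0, he0, rrefl _, by simp⟩
            | insert p s _ ih =>
              obtain ⟨k, hkc, hk0, hk⟩ := ih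
              have : r p.1.1 k ∨ r k p.1.1 := by
                by_cases hpk : p.1.1 = k
                · left; rw [hpk]; exact rrefl _
                · exact hc p.1.2 hkc hpk
              rcases this with h1 | h1
              · refine ⟨k, hkc, hk0, fun q hq => ?_⟩
                rcases Finset.mem_insert.1 hq with rfl | hq
                · exact h1
                · exact hk q hq
              · refine ⟨p.1.1, p.1.2, rtrans hk0 h1, fun q hq => ?_⟩
                rcases Finset.mem_insert.1 hq with rfl | hq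
                · exact rrefl _
                · exact rtrans (hk q hq) h1
          obtain ⟨k, -, h1, h2⟩ := this J0.toLeft
          exact ⟨k, h1, h2⟩
        let u : c → M →ₗ[R] M := fun i => if h : r i.1 k then h.choose else 0
        have hu : ∀ i : c, r i.1 k → ∀ x, u i (i.1.1 x) = k.1 x := by
          intro i hi x
          simp only [u, dif_pos hi]
          exact hi.choose_spec x
        refine ⟨Finsupp.lsum ℕ u, ?_⟩
        rintro (p | b) hj
        · simp only [Sum.elim_inl, map_sub, Finsupp.lsum_single]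
          rw [hu p.1 (hk p (by simpa using hj)), hu ⟨e0, he0⟩ hk0, sub_self]
        · simp only [Sum.elim_inr, Finsupp.lsum_single]
          have := hu ⟨e0, he0⟩ hk0 b.1
          rw [e0.2 b.1 b.2, k.2 b.1 b.2] at this
          exact this)
    refine ⟨⟨g ∘ₗ Finsupp.lsingle (⟨e0, he0⟩ : c) ∘ₗ e0.1, fun b hb => ?_⟩, fun i hi => ?_⟩
    · have := hg (Sum.inr ⟨b, hb⟩)
      simp only [Sum.elim_inr] at this
      simp only [LinearMap.comp_apply, Finsupp.lsingle_apply, e0.2 b hb, this]
    · refine ⟨g ∘ₗ Finsupp.lsingle (⟨i, hi⟩ : c), fun x => ?_⟩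
      have := hg (Sum.inl (⟨i, hi⟩, x))
      simp only [Sum.elim_inl, map_sub, sub_eq_zero] at this
      simpa using this) rtrans
  have hsmall : small (Set.range e.1) := by
    intro h hh
    obtain ⟨u, hu⟩ := hB.prop h hh
    let e' : E := ⟨u ∘ₗ h ∘ₗ e.1, fun b hb => by simp [e.2 b hb, hu b hb]⟩
    obtain ⟨w, hw⟩ := he e' ⟨u ∘ₗ h, fun x => rfl⟩
    refine ⟨w ∘ₗ u, ?_⟩
    rintro _ ⟨x, rfl⟩
    exact hw x
  have hsub : B ⊆ Set.range e.1 := fun b hb => ⟨b, e.2 b hb⟩
  have hsub' : Set.range e.1 ⊆ B := hB.le_of_ge hsmall hsub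
  refine ⟨e.1, e.2 a (haB rfl), fun x => e.2 _ (hsub' ⟨x, rfl⟩), fun h hh x hx => ?_⟩
  obtain ⟨u, hu⟩ := hsmall h hh
  rw [← hu _ ⟨x, rfl⟩, hx, map_zero]

/-- In an indecomposable algebraically compact module, an endomorphism fixing a nonzero element
is injective. -/
theorem injective_of_fix (hM : AlgCompact R M) (hI : Indec R M) {a : M} (ha : a ≠ 0)
    (h : M →ₗ[R] M) (hh : h a = a) (x : M) (hx : h x = 0) : x = 0 := by
  obtain ⟨e, hea, hee, he⟩ := exists_hull hM a
  have hc : IsCompl (LinearMap.range e) (LinearMap.ker e) := by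
    constructor
    · rw [Submodule.disjoint_def]
      rintro _ ⟨y, rfl⟩ hy
      rw [LinearMap.mem_ker, hee] at hy
      exact hy
    · rw [codisjoint_iff, eq_top_iff]
      intro y _
      have : y = e y + (y - e y) := by abel
      rw [this]
      exact Submodule.add_mem_sup ⟨y, rfl⟩ (by rw [LinearMap.mem_ker, map_sub, hee, sub_self])
  rcases hI.2 _ _ hc with h1 | h1
  · exact absurd ((Submodule.eq_bot_iff _).1 h1 a ⟨a, hea⟩) ha
  · have hex : e x = x := by
      have : x - e x ∈ LinearMap.ker e := by rw [LinearMap.mem_ker, map_sub, hee, sub_self]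
      rw [h1, Submodule.mem_bot, sub_eq_zero] at this
      exact this.symm
    have := he h hh x (by rw [hex, hx])
    rwa [hex] at this

end

end Pool.Agent.Lib.MP_08e64a_al
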