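import Mathlib

/-!
Definitions for MP_08e64a_al: pp formulas, pure embeddings, pure-injective modules and the
Ziegler spectrum.  Everything is stated for left modules; right `R`-modules are left
`Rᵐᵒᵖ`-modules.
-/

namespace Pool.Agent.Lib.MP_08e64a_al

universe u

/-- A pp formula in `n` free variables for left `R`-modules: `∃ y, A x + B y = 0`, with `m`
bound variables and `k` equations. -/
structure PP (R : Type u) (n : ℕ) where
  m : ℕ
  k : ℕ
  A : Fin k → Fin n → R
  B : Fin k → Fin m → R

/-- The solution set `φ(M) ⊆ M^n` of a pp formula `φ` in a left module `M`. -/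
def PP.sat {R : Type u} [Ring R] {n : ℕ} (φ : PP R n) (M : Type u) [AddCommGroup M]
    [Module R M] : Set (Fin n → M) :=
  {x | ∃ y : Fin φ.m → M, ∀ j, ∑ i, φ.A j i • x i + ∑ l, φ.B j l • y l = 0}

/-- A pure embedding: an injective homomorphism that reflects every pp formula. -/
def IsPureEmb {R : Type u} [Ring R] {A B : Type u} [AddCommGroup A] [Module R A]
    [AddCommGroup B] [Module R B] (f : A →ₗ[R] B) : Prop :=
  Function.Injective f ∧
    ∀ (n : ℕ) (φ : PP R n) (x : Fin n → A), (fun i => f (x i)) ∈ φ.sat B → x ∈ φ.sat A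

/-- Pure-injective: injective with respect to pure embeddings. -/
def PureInjective (R : Type u) [Ring R] (M : Type u) [AddCommGroup M] [Module R M] : Prop :=
  ∀ (A B : Type u) [AddCommGroup A] [Module R A] [AddCommGroup B] [Module R B]
    (i : A →ₗ[R] B), IsPureEmb i → ∀ f : A →ₗ[R] M, ∃ g : B →ₗ[R] M, g ∘ₗ i = f

/-- Indecomposable: nonzero and not the direct sum of two nonzero submodules. -/
def Indec (R : Type u) [Ring R] (M : Type u) [AddCommGroup M] [Module R M] : Prop :=
  Nontrivial M ∧ ∀ A B : Submodule R M, IsCompl A B → A = ⊥ ∨ B = ⊥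

/-- Indecomposable pure-injective left `R`-modules. -/
def IPI (R : Type u) [Ring R] : Type (u + 1) :=
  {M : ModuleCat.{u} R // Indec R M ∧ PureInjective R M}

/-- Isomorphism of modules, as an equivalence relation. -/
def isoSetoid (R : Type u) [Ring R] : Setoid (IPI R) where
  r M N := Nonempty (M.1 ≃ₗ[R] N.1)
  iseqv :=
    ⟨fun _ => ⟨LinearEquiv.refl _ _⟩, fun ⟨e⟩ => ⟨e.symm⟩, fun ⟨e⟩ ⟨f⟩ => ⟨e.trans f⟩⟩

/-- The points of the (left) Ziegler spectrum: isomorphism classes of indecomposable
pure-injective left `R`-modules. -/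
def Zg (R : Type u) [Ring R] : Type (u + 1) := Quotient (isoSetoid R)

/-- The set `(φ/ψ)` of classes of modules `N` with `ψ(N) ∩ φ(N) ⊊ φ(N)`. -/
def basicOpen {R : Type u} [Ring R] {n : ℕ} (φ ψ : PP R n) : Set (Zg R) :=
  {p | ∃ N : IPI R, Quotient.mk (isoSetoid R) N = p ∧ ψ.sat N.1 ∩ φ.sat N.1 ⊂ φ.sat N.1}

/-- The Ziegler topology: generated by the sets `(φ/ψ)`. -/
instance zgTop (R : Type u) [Ring R] : TopologicalSpace (Zg R) :=
  TopologicalSpace.generateFrom {U | ∃ (n : ℕ) (φ ψ : PP R n), U = basicOpen φ ψ}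

end Pool.Agent.Lib.MP_08e64a_al
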