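import Pool.Agent.Lib.MP_08e64a_al.Stage

/-!
The key lemma: an unsolvable finite system over `P` is detected by one functional on the
endomorphisms of `P`.
-/

namespace Pool.Agent.Lib.MP_08e64a_al

open Filter

theorem Z_smul (ρ : ℕ) (r : R) : ∀ f : P, (∀ u : V, u.1 < ρ → ∀ b ω, f u b ω = 0) →
    ∀ u : V, u.1 < ρ → ∀ b ω, (r • f) u b ω = 0 := by
  induction mem_closure_gen r using Subring.closure_induction with
  | mem x hx =>
    intro f hf w hw b ω
    obtain ⟨(⟨u, c⟩ | a), rfl⟩ := hx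
    · simp only [gen, Sum.elim_inl, mu_smul]
      split_ifs with h
      · rw [hf u (h ▸ hw), mul_zero]
      · rfl
    · simp only [gen, Sum.elim_inr, t_smul]
      split_ifs with h
      · refine Finset.sum_eq_zero fun b' _ => ?_
        rw [hf _ ((rank_lt a.2.1).trans (h ▸ hw)), mul_zero]
      · rfl
  | zero => intro f _ w _ b ω; rw [zero_smul]; rfl
  | one => intro f hf w hw b ω; rw [one_smul]; exact hf w hw b ω
  | add x y _ _ hx hy =>
    intro f hf w hw b ω
    rw [add_smul, P.add_apply, hx f hf w hw, hy f hf w hw, add_zero]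
  | neg x _ hx =>
    intro f hf w hw b ω
    rw [neg_smul, P.neg_apply, hx f hf w hw, neg_zero]
  | mul x y _ _ hx hy =>
    intro f hf w hw b ω
    rw [mul_smul, hx _ (hy f hf) w hw]

/-- Elements vanishing at all vertices of rank `< ρ`. -/
def Z (ρ : ℕ) : Submodule R P where
  carrier := {f | ∀ u : V, u.1 < ρ → ∀ b ω, f u b ω = 0}
  zero_mem' _ _ _ _ := rfl
  add_mem' hf hg u hu b ω := by rw [P.add_apply, hf u hu, hg u hu, add_zero]
  smul_mem' r f hf := Z_smul ρ r f hf

theorem mem_Z {ρ : ℕ} {f : P} : f ∈ Z ρ ↔ ∀ u : V, u.1 < ρ → ∀ b ω, f u b ω = 0 := Iff.rfl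

theorem supp_smul {F : Finset V} {T : Finset Ar} {N : ℕ} (hT : ∀ a ∈ T, a.1.1.2.1 ∈ F) {r : R}
    (hr : r ∈ Subring.closure (Gen F T N)) : ∀ f : P, (∀ u ∉ F, ∀ b ω, f u b ω = 0) →
      ∀ u ∉ F, ∀ b ω, (r • f) u b ω = 0 := by
  induction hr using Subring.closure_induction with
  | mem x hx =>
    intro f hf w hw b ω
    rcases hx with ⟨u, hu, c, -, rfl⟩ | ⟨a, ha, rfl⟩
    · rw [mu_smul, if_neg]
      rintro rfl; exact hw hu
    · rw [t_smul, if_neg]
      rintro rfl; exact hw (hT a ha)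
  | zero => intro f _ w _ b ω; rw [zero_smul]; rfl
  | one => intro f hf w hw b ω; rw [one_smul]; exact hf w hw b ω
  | add x y _ _ hx hy =>
    intro f hf w hw b ω
    rw [add_smul, P.add_apply, hx f hf w hw, hy f hf w hw, add_zero]
  | neg x _ hx =>
    intro f hf w hw b ω
    rw [neg_smul, P.neg_apply, hx f hf w hw, neg_zero]
  | mul x y _ _ hx hy =>
    intro f hf w hw b ω
    rw [mul_smul, hx _ (hy f hf) w hw]

open Classical in
/-- Evaluation at the base points. -/
noncomputable def piP (F : Finset V) (S : Finset (V × ℕ)) {N : ℕ} (bp : V → Win N → Om) :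
    P →+ P where
  toFun f := fun u b ω => if u ∈ F ∧ b ∈ S then f u b (bp u (res N u.1 ω)) else 0
  map_zero' := P.ext fun u b ω => by simp
  map_add' f g := P.ext fun u b ω => by
    simp only [P.add_apply]; split_ifs <;> simp

open Classical in
theorem piP_apply (F : Finset V) (S : Finset (V × ℕ)) {N : ℕ} (bp : V → Win N → Om) (f : P)
    (u b ω) :
    piP F S bp f u b ω = if u ∈ F ∧ b ∈ S then f u b (bp u (res N u.1 ω)) else 0 := rfl

/-- Elements of the finite stage. -/
def Fin0 (F : Finset V) (S : Finset (V × ℕ)) (N : ℕ) (f : P) : Prop :=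
  (∀ u b ω, ¬ (u ∈ F ∧ b ∈ S) → f u b ω = 0) ∧
    ∀ u b ω ω', res N u.1 ω = res N u.1 ω' → f u b ω = f u b ω'

theorem fin0_piP (F : Finset V) (S : Finset (V × ℕ)) {N : ℕ} (bp : V → Win N → Om) (f : P) :
    Fin0 F S N (piP F S bp f) :=
  ⟨fun u b ω h => by rw [piP_apply, if_neg h], fun u b ω ω' h => by
    rw [piP_apply, piP_apply, h]⟩

theorem piP_eq {F : Finset V} {S : Finset (V × ℕ)} {N : ℕ} {bp : V → Win N → Om}
    (h1 : ∀ u ∈ F, ∀ ω, res N u.1 (bp u (res N u.1 ω)) = res N u.1 ω) {f : P}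
    (hf : Fin0 F S N f) : piP F S bp f = f := by
  refine P.ext fun u b ω => ?_
  rw [piP_apply]
  split_ifs with h
  · exact hf.2 _ _ _ _ (h1 u h.1 ω)
  · exact (hf.1 u b ω h).symm

theorem piP_comm {F : Finset V} {S : Finset (V × ℕ)} {T : Finset Ar} {N ρ : ℕ}
    {bp : V → Win N → Om} (hF : ∀ d ∈ F, par d ⊆ F) (hT : ∀ a ∈ T, a.1.1.2.1 ∈ F)
    (hS : ∀ a ∈ T, ∀ b b', Th a.1 b b' ≠ 0 → (b ∈ S ↔ b' ∈ S))
    (hdep : ∀ a ∈ T, ∀ b ∈ S, ∀ b', Dep N a.1.1.2.1.1 (Th a.1 b b'))
    (h1 : ∀ u ∈ F, ∀ ω, res N u.1 (bp u (res N u.1 ω)) = res N u.1 ω)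
    (h3 : ∀ a ∈ T, a.1.1.2.1.1 ≤ ρ → ∀ ω, bp a.1.1.1 (res N a.1.1.1.1 (iota a.1.1 ω)) =
        iota a.1.1 (bp a.1.1.2.1 (res N a.1.1.2.1.1 ω)))
    {r : R} (hr : r ∈ Subring.closure (Gen F T N)) :
    ∀ f : P, piP F S bp (r • f) - r • piP F S bp f ∈ Z (ρ + 1) := by
  induction hr using Subring.closure_induction with
  | mem x hx =>
    intro f w hw b ω
    rw [P.sub_apply, sub_eq_zero]
    rcases hx with ⟨u, hu, c, hc, rfl⟩ | ⟨a, ha, rfl⟩
    · rw [piP_apply, mu_smul, mu_smul, piP_apply]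
      by_cases hwu : w = u
      · subst hwu
        rw [hc _ _ (h1 w hu ω)]
        split_ifs <;> simp
      · simp [hwu]
    · rw [piP_apply, t_smul, t_smul]
      by_cases hwu : w = a.1.1.2.1
      · subst hwu
        rw [if_pos rfl, if_pos rfl]
        have hs : a.1.1.1 ∈ F := hF _ (hT a ha) a.2.1
        by_cases hb : b ∈ S
        · rw [if_pos ⟨hT a ha, hb⟩]
          refine Finset.sum_congr rfl fun b' hb' => ?_
          rw [piP_apply, if_pos ⟨hs, (hS a ha b b' (Finsupp.mem_support_iff.1 hb')).1 hb⟩,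
            h3 a ha (Nat.lt_succ_iff.1 hw), hdep a ha b hb b' _ _ (h1 _ (hT a ha) ω)]
        · rw [if_neg (fun h => hb h.2), eq_comm]
          refine Finset.sum_eq_zero fun b' hb' => ?_
          rw [piP_apply, if_neg, mul_zero]
          exact fun h => hb ((hS a ha b b' (Finsupp.mem_support_iff.1 hb')).2 h.2)
      · simp [hwu]
  | zero => intro f; simp
  | one => intro f; simp
  | add x y _ _ hx hy =>
    intro f
    have := add_mem (hx f) (hy f)
    rw [add_smul, add_smul, map_add]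
    rwa [sub_add_sub_comm] at this
  | neg x _ hx =>
    intro f
    have := neg_mem (hx f)
    rw [neg_smul, neg_smul, map_neg]
    rwa [neg_sub'] at this
  | mul x y _ _ hx hy =>
    intro f
    have := add_mem (hx (y • f)) ((Z (ρ + 1)).smul_mem x (hy f))
    rw [smul_sub, sub_add_sub_cancel] at this
    rwa [mul_smul, mul_smul]

theorem exists_bound (F : Finset V) (T : Finset Ar) (hF : ∀ d ∈ F, par d ⊆ F)
    (hT : ∀ a ∈ T, a.1.1.2.1 ∈ F) :
    ∀ᶠ I in atTop, ∀ a ∈ T, ∀ b b', Th a.1 b b' ≠ 0 →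
      (b ∈ F ×ˢ Finset.range I ↔ b' ∈ F ×ˢ Finset.range I) := by
  have h1 : ∀ᶠ I in atTop, ∀ a ∈ T, a.1.2.2 < I :=
    (eventually_all_finset _).2 fun a _ => eventually_gt_atTop _
  have h2 : ∀ᶠ I in atTop, ∀ j ∈ F, ∀ p ∈ (task j.2).2.support,
      p.2 < I ∧ ∀ i ∈ ((task j.2).2 p).support, i < I :=
    (eventually_all_finset _).2 fun j _ => (eventually_all_finset _).2 fun p _ =>
      (eventually_gt_atTop _).and ((eventually_all_finset _).2 fun i _ => eventually_gt_atTop _)
  filter_upwards [h1, h2, eventually_gt_atTop 0] with I h1 h2 h0 a ha b b' h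
  by_cases hb : b = (a.1.1.2.1, 0)
  · subst hb
    rw [Th_tgt] at h
    have : b' = a.1.2 := by
      by_contra hne
      exact h (Finsupp.single_eq_of_ne hne)
    subst this
    simp only [Finset.mem_product, Finset.mem_range]
    exact ⟨fun _ => ⟨hF _ (hT a ha) a.2.2, h1 a ha⟩, fun _ => ⟨hT a ha, h0⟩⟩
  · obtain ⟨h3, h4⟩ := Th_ne_zero _ _ _ hb h
    obtain ⟨j, i'⟩ := b'
    simp only at h4
    subst h4
    rw [Th_of_lt _ _ h3] at h
    simp only [Finset.mem_product, Finset.mem_range]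
    by_cases hj : b.1 ∈ F
    · have h5 := h2 _ hj (a.1, b.2) (Finsupp.mem_support_iff.2 fun h6 => h (by rw [h6]; rfl))
      exact ⟨fun _ => ⟨hj, h5.2 _ (Finsupp.mem_support_iff.2 h)⟩, fun _ => ⟨hj, h5.1⟩⟩
    · simp [hj]

theorem eventually_dep_Th (T : Finset Ar) (S : Finset (V × ℕ)) :
    ∀ᶠ N in atTop, ∀ a ∈ T, ∀ b ∈ S, ∀ b', Dep N a.1.1.2.1.1 (Th a.1 b b') := by
  refine (eventually_all_finset _).2 fun a _ => (eventually_all_finset _).2 fun b _ => ?_
  have : ∀ᶠ N in atTop, ∀ b' ∈ (Th a.1 b).support, Dep N a.1.1.2.1.1 (Th a.1 b b') :=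
    (eventually_all_finset _).2 fun b' _ => eventually_dep _ _
  filter_upwards [this] with N h b'
  by_cases hb' : b' ∈ (Th a.1 b).support
  · exact h b' hb'
  · rw [Finsupp.notMem_support_iff.1 hb']
    exact fun _ _ _ => rfl

/-- The prefix describing a window. -/
noncomputable def pre {N : ℕ} (x : Win N) : Finset (ℕ × ℕ) :=
  (Finset.univ.filter fun p : Fin N × Fin N => x p.1 p.2 = true).image
    fun p => (p.1.1, p.2.1)

theorem res_iota_pre {N : ℕ} {u d : V} (h : u.1 + N < d.1) (ω ω0 : Om) :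
    res N u.1 (iota (u, d, pre (res N u.1 ω)) ω0) = res N u.1 ω := by
  rw [res_eq_iff]
  intro i j hi hj
  simp only [iota]
  rw [if_pos (by omega)]
  have hiN : i < N := by omega
  have : (i, j) ∈ pre (res N u.1 ω) ↔ ω i j = true := by
    simp only [pre, Finset.mem_image, Finset.mem_filter, Finset.mem_univ, true_and, Prod.mk.injEq]
    constructor
    · rintro ⟨⟨i', j'⟩, h1, rfl, rfl⟩
      simpa [res, hi] using h1
    · intro h1
      exact ⟨(⟨i, hiN⟩, ⟨j, hj⟩), by simpa [res, hi] using h1, rfl, rfl⟩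
  rw [Bool.eq_iff_iff, decide_eq_true_iff, this]

open Classical in
/-- The cell vector. -/
noncomputable def Dc {N : ℕ} (u : V) (x : Win N) (b : V × ℕ) : P :=
  fun w b' ω => if w = u ∧ b' = b then (cell u.1 x).1 ω else 0

def om0 : Om := fun _ _ => false

theorem key {X J : Type} [Fintype J] (k : J → X →₀ R) (m : J → P) (hm : ∀ j, Loc (m j))
    (hns : ¬ ∃ z : X → P, ∀ j, lin z (k j) = m j) :
    ∃ (F : Finset V) (n : ℕ), ∀ d : V, F ⊆ par d → n ≤ d.1 → ∀ g : P →ₗ[R] P,
      (∃ z : X → P, ∀ j, lin z (k j) = g (m j)) → g (Yd d) d (d, 0) om0 = 0 := by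
  classical
  choose A hA hAC using hm
  obtain ⟨F, T, hBF, hF, hT, hev⟩ := exists_stage
    (Finset.univ.biUnion fun j => (k j).support.image (k j))
    (Finset.univ.biUnion fun j => (A j).image Prod.fst ∪ (A j).image fun p => p.2.1)
  obtain ⟨I, hS, hI⟩ := ((exists_bound F T hF hT).and
    ((eventually_all_finset Finset.univ).2 fun j _ => (eventually_all_finset (A j)).2
      fun p _ => eventually_gt_atTop p.2.2)).exists
  set S := F ×ˢ Finset.range I with hSdef
  obtain ⟨N, ⟨hsep, hcl⟩, hdep, hmdep⟩ := (hev.and ((eventually_dep_Th T S).and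
    ((eventually_all_finset Finset.univ).2 fun j _ => (eventually_all_finset (A j)).2
      fun p _ => eventually_dep ⟨m j p.1 p.2, hAC j p.1 p.2⟩ p.1.1))).exists
  have hcl' : ∀ j x, k j x ∈ Subring.closure (Gen F T N) := by
    intro j x
    by_cases hx : x ∈ (k j).support
    · exact hcl _ (Finset.mem_biUnion.2 ⟨j, Finset.mem_univ _, Finset.mem_image_of_mem _ hx⟩)
    · rw [Finsupp.notMem_support_iff.1 hx]; exact zero_mem _
  have hm0 : ∀ j, Fin0 F S N (m j) := by
    intro j
    refine ⟨fun u b ω h => hA j u b ω fun hA' => h ⟨hBF (Finset.mem_biUnion.2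
      ⟨j, Finset.mem_univ _, Finset.mem_union_left _ (Finset.mem_image_of_mem _ hA')⟩), ?_⟩,
      fun u b ω ω' h => ?_⟩
    · exact Finset.mem_product.2 ⟨hBF (Finset.mem_biUnion.2 ⟨j, Finset.mem_univ _,
        Finset.mem_union_right _ (Finset.mem_image_of_mem (fun p : V × V × ℕ => p.2.1) hA')⟩),
        Finset.mem_range.2 (hI j (Finset.mem_univ _) _ hA')⟩
    · by_cases hA' : (u, b) ∈ A j
      · exact hmdep j (Finset.mem_univ _) _ hA' ω ω' h
      · rw [hA j u b ω hA', hA j u b ω' hA']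
  let Sol : ℕ → Prop := fun ρ =>
    ∃ z : X → P, (∀ x, Fin0 F S N (z x)) ∧ ∀ j, lin z (k j) - m j ∈ Z ρ
  have hSol0 : Sol 0 := ⟨0, fun _ => ⟨fun _ _ _ _ => rfl, fun _ _ _ _ _ => rfl⟩,
    fun j u hu => absurd hu (Nat.not_lt_zero _)⟩
  have hSolmax : ∃ ρ, ¬ Sol (ρ + 1) := by
    refine ⟨F.sup Prod.fst, fun ⟨z, hz1, hz2⟩ => hns ⟨z, fun j => ?_⟩⟩
    rw [← sub_eq_zero]
    refine P.ext fun u b ω => ?_
    by_cases hu : u ∈ F
    · exact hz2 j u (Nat.lt_succ_of_le (Finset.le_sup (f := Prod.fst) hu)) b ω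
    · rw [P.sub_apply, (hm0 j).1 u b ω (fun h => hu h.1), lin_eq_sum _ _ _ subset_rfl,
        P.sum_apply, Finset.sum_eq_zero, sub_zero, P.zero_apply]
      intro x _
      exact supp_smul hT (hcl' j x) _ (fun w hw b ω => (hz1 x).1 w b ω fun h => hw h.1) u hu b ω
  obtain ⟨ρ, hρ1, z0, hz01, hz02⟩ : ∃ ρ, ¬ Sol (ρ + 1) ∧ Sol ρ := by
    refine ⟨Nat.find hSolmax, Nat.find_spec hSolmax, ?_⟩
    rcases h : Nat.find hSolmax with _ | ρ
    · exact hSol0
    · have := Nat.find_min hSolmax (m := ρ) (by omega)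
      exact not_not.1 this
  refine ⟨F, F.sup Prod.fst + N + 1, fun d hFd hnd => ?_⟩
  have hrk : ∀ u ∈ F, u.1 + N < d.1 := fun u hu => by
    have : u.1 ≤ F.sup Prod.fst := Finset.le_sup (f := Prod.fst) hu
    omega
  obtain ⟨bp, h1, h2, h3⟩ := exists_bp F T N ρ hT hsep
    (fun u x => iota (u, d, pre x) om0) (fun u hu ω => res_iota_pre (hrk u hu) ω om0)
  set π := piP F S bp with hπ
  have hlin : ∀ (z : X → P) j, π (lin z (k j)) - lin (fun x => π (z x)) (k j) ∈ Z (ρ + 1) := by
    intro z j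
    rw [lin_eq_sum _ _ _ subset_rfl, lin_eq_sum _ _ _ subset_rfl, map_sum,
      ← Finset.sum_sub_distrib]
    exact Submodule.sum_mem _ fun x _ => piP_comm hF hT hS hdep h1 h3 (hcl' j x) _
  let W : AddSubgroup (P →ₗ[R] P) :=
    { carrier := {g | ∃ z : X → P, (∀ x, Fin0 F S N (z x)) ∧
        ∀ j, lin z (k j) - π (g (m j)) ∈ Z (ρ + 1)}
      zero_mem' := ⟨0, fun _ => ⟨fun _ _ _ _ => rfl, fun _ _ _ _ _ => rfl⟩, fun j => by
        simp [lin]⟩
      add_mem' := by
        rintro g g' ⟨z, hz1, hz2⟩ ⟨z', hz1', hz2'⟩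
        refine ⟨z + z', fun x => ⟨fun u b ω h => ?_, fun u b ω ω' h => ?_⟩, fun j => ?_⟩
        · rw [Pi.add_apply, P.add_apply, (hz1 x).1 u b ω h, (hz1' x).1 u b ω h, add_zero]
        · rw [Pi.add_apply, P.add_apply, P.add_apply, (hz1 x).2 u b ω ω' h,
            (hz1' x).2 u b ω ω' h]
        · have := add_mem (hz2 j) (hz2' j)
          rw [sub_add_sub_comm] at this
          have e : lin (z + z') (k j) = lin z (k j) + lin z' (k j) := by
            simp [lin, Finsupp.linearCombination_apply, Finsupp.sum, Finset.sum_add_distrib]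
          rw [e, LinearMap.add_apply, map_add]
          exact this
      neg_mem' := by
        rintro g ⟨z, hz1, hz2⟩
        refine ⟨-z, fun x => ⟨fun u b ω h => ?_, fun u b ω ω' h => ?_⟩, fun j => ?_⟩
        · rw [Pi.neg_apply, P.neg_apply, (hz1 x).1 u b ω h, neg_zero]
        · rw [Pi.neg_apply, P.neg_apply, P.neg_apply, (hz1 x).2 u b ω ω' h]
        · have := neg_mem (hz2 j)
          rw [neg_sub'] at this
          have e : lin (-z) (k j) = -lin z (k j) := by
            simp [lin, Finsupp.linearCombination_apply, Finsupp.sum]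
          rw [e, LinearMap.neg_apply, map_neg]
          exact this }
  have hidW : LinearMap.id ∉ W := by
    rintro ⟨z, hz1, hz2⟩
    refine hρ1 ⟨z, hz1, fun j => ?_⟩
    have := hz2 j
    rwa [LinearMap.id_apply, piP_eq h1 (hm0 j)] at this
  let Idx := F × Win N × S × S
  let μ : (P →ₗ[R] P) →+ (Idx → K) :=
    { toFun := fun g q => g (Dc q.1.1 q.2.1 q.2.2.2.1) q.1.1 q.2.2.1.1
        (iota (q.1.1, d, pre q.2.1) om0)
      map_zero' := rfl
      map_add' := fun _ _ => rfl }
  have hker : ∀ g, μ g = 0 → g ∈ W := by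
    intro g hg
    refine ⟨fun x => π (g (z0 x)), fun x => fin0_piP _ _ _ _, fun j => ?_⟩
    set err := lin z0 (k j) - m j with herr
    have e1 : π err - err ∈ Z (ρ + 1) := by
      have := hlin z0 j
      simp only [hπ, piP_eq h1 (hz01 _)] at this
      rw [herr, map_sub, hπ, piP_eq h1 (hm0 j), sub_sub_sub_cancel_right]
      exact this
    have e2 : π (g err) ∈ Z (ρ + 1) := by
      intro u hu b ω
      rw [hπ, piP_apply]
      split_ifs with h
      · set x := res N u.1 ω with hx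
        have e3 : g err u b (bp u x) = g (mu u (cell u.1 x) • err) u b (bp u x) := by
          rw [map_smul, mu_smul, if_pos rfl, cell_apply, hx, h1 u h.1, if_pos rfl, one_mul]
        rw [e3]
        rcases Nat.lt_succ_iff_lt_or_eq.1 hu with hu' | hu'
        · have : mu u (cell u.1 x) • err = 0 := P.ext fun w b' ω' => by
            have e0 : err u b' ω' = 0 := hz02 j u hu' b' ω'
            rw [mu_smul, e0]; simp
          rw [this, map_zero, P.zero_apply]
        · have e4 : ∀ b' ω', err u b' ω' = π err u b' ω' := fun b' ω' => by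
            have := e1 u hu b' ω'
            rw [P.sub_apply, sub_eq_zero] at this
            exact this.symm
          have e5 : mu u (cell u.1 x) • err =
              ∑ b' : S, err u b'.1 (bp u x) • Dc u x b'.1 := P.ext fun w b'' ω' => by
            rw [mu_smul, P.sum_apply]
            simp only [P.smul_apply, Dc]
            by_cases hw : w = u
            · rw [if_pos hw]
              by_cases hb'' : b'' ∈ S
              · rw [Finset.sum_eq_single ⟨b'', hb''⟩]
                · rw [if_pos ⟨hw, rfl⟩, cell_apply]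
                  split_ifs with h4
                  · rw [e4 b'' ω', hπ, piP_apply, if_pos ⟨h.1, hb''⟩, h4, one_mul, mul_one]
                  · simp
                · intro b' _ hb'
                  rw [if_neg, mul_zero]
                  exact fun h5 => hb' (Subtype.ext h5.2.symm)
                · simp
              · rw [e4 b'' ω', hπ, piP_apply, if_neg (fun h5 => hb'' h5.2), mul_zero, eq_comm]
                refine Finset.sum_eq_zero fun b' _ => ?_
                rw [if_neg, mul_zero]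
                exact fun h5 => hb'' (h5.2 ▸ b'.2)
            · simp [hw]
          rw [e5, map_sum, P.sum_apply]
          refine Finset.sum_eq_zero fun b' _ => ?_
          have e6 := congrFun hg (⟨u, h.1⟩, x, ⟨b, h.2⟩, b')
          rw [ZMod.map_smul, P.smul_apply, h2 u hu'.ge]
          exact mul_eq_zero_of_right _ e6
      · rfl
    have e7 := hlin (fun x => g (z0 x)) j
    rw [lin_comp] at e7
    have e8 : lin z0 (k j) = m j + err := by rw [herr]; abel
    rw [e8, map_add, map_add] at e7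
    have := sub_mem e2 e7
    have e9 : π (g err) - (π (g (m j)) + π (g err) - lin (fun x => π (g (z0 x))) (k j)) =
      lin (fun x => π (g (z0 x))) (k j) - π (g (m j)) := by abel
    rwa [e9] at this
  obtain ⟨ν, hν1, hν2⟩ := Submodule.exists_le_ker_of_notMem
    (p := AddSubgroup.toZModSubmodule 2 (W.map μ)) (v := μ LinearMap.id) (by
      rintro ⟨w, hw, hw'⟩
      refine hidW ?_
      have := add_mem (hker (LinearMap.id - w) (by rw [map_sub, hw', sub_self])) hw
      rwa [sub_add_cancel] at this)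
  have hν3 : ν (μ LinearMap.id) = 1 := by
    generalize ν (μ LinearMap.id) = y at hν1
    revert y
    decide
  let ar : Idx → Ar := fun q => ⟨((q.1.1, d, pre q.2.1), q.2.2.1.1),
    hFd q.1.2, hFd (Finset.mem_product.1 q.2.2.1.2).1⟩
  obtain ⟨e, hνe⟩ : ∃ e : Idx → K, ∀ v : Idx → K, ν v = ∑ q, v q * e q :=
    ⟨_, fun v => LinearMap.pi_apply_eq_sum_univ ν v⟩
  have hY : Yd d = ∑ q, e q • t (ar q) • Dc q.1.1 q.2.1 q.2.2.2.1 := by
    have : ∀ q : Idx, t (ar q) • Dc q.1.1 q.2.1 q.2.2.2.1 = μ LinearMap.id q • Yd d := by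
      intro q
      refine t_smul_eq_Yd (ar q) _ _ (fun ω => ?_) fun b ω hb => ?_
      · show Dc q.1.1 q.2.1 q.2.2.2.1 q.1.1 q.2.2.1.1 (iota (q.1.1, d, pre q.2.1) ω) =
          Dc q.1.1 q.2.1 q.2.2.2.1 q.1.1 q.2.2.1.1 (iota (q.1.1, d, pre q.2.1) om0)
        simp only [Dc]
        split_ifs
        · refine dep_cell _ _ _ _ (res_eq_iff.2 fun i j hi _ => iota_congr _ fun h => ?_)
          have := hrk _ q.1.2
          simp only at h
          omega
        · rfl
      · simp only [Dc]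
        rw [if_neg]
        rintro ⟨-, rfl⟩
        have := rank_lt (hFd (Finset.mem_product.1 q.2.2.2.2).1)
        simp only [ar] at hb
        omega
    simp only [this, smul_smul]
    rw [← Finset.sum_smul]
    have := hνe (μ LinearMap.id)
    rw [hν3] at this
    simp only [mul_comm (e _)]
    rw [← this, one_smul]
  rintro g ⟨z, hz⟩
  have hgW : g ∈ W := by
    refine ⟨fun x => π (z x), fun x => fin0_piP _ _ _ _, fun j => ?_⟩
    have := neg_mem (hlin z j)
    rwa [neg_sub, hz j] at this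
  have h0 : ν (μ g) = 0 := hν2 ⟨g, hgW, rfl⟩
  rw [hY, map_sum, P.sum_apply, ← h0, hνe]
  refine Finset.sum_congr rfl fun q _ => ?_
  rw [ZMod.map_smul, P.smul_apply, map_smul, mul_comm]
  exact congrArg (· * e q) (t_smul_tgt (ar q) _ om0)

end Pool.Agent.Lib.MP_08e64a_al
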