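import Pool.Agent.Lib.MP_08e64a_al.Realize

/-!
The left spectrum of `R` has a generic point and the right spectrum has none.
-/

namespace Pool.Agent.Lib.MP_08e64a_al

theorem key_end {a b : P} (ha : Loc a) (hb : ¬ ∃ u : P →ₗ[R] P, u b = a) :
    ∃ (F : Finset V) (n : ℕ), ∀ d : V, F ⊆ par d → n ≤ d.1 → ∀ g : P →ₗ[R] P,
      g a = b → g (Yd d) d (d, 0) om0 = 0 := by
  classical
  have h1 : ¬ ∀ (J0 : Finset Unit) (K0 : Finset (P →₀ R)),
      (∀ k ∈ K0, lin (fun x : P => x) k = 0) →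
      ∃ z : P → P, (∀ k ∈ K0, lin z k = 0) ∧ ∀ j ∈ J0, z b = a := fun h => by
    obtain ⟨g, hg⟩ := ext_of_algCompact algCompact_P P Unit (fun _ => b) (fun _ => a) h
    exact hb ⟨g, hg ()⟩
  push Not at h1
  obtain ⟨J0, K0, hK, hz⟩ := h1
  obtain ⟨F, n, h⟩ := key (X := P) (J := Option K0)
    (fun o => o.elim (Finsupp.single b 1) fun k => k.1) (fun o => o.elim a fun _ => 0)
    (by rintro (_ | _); exacts [ha, loc_zero]) (by
      rintro ⟨z, hz'⟩
      obtain ⟨j, -, hj⟩ := hz z fun k hk => hz' (some ⟨k, hk⟩)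
      exact hj (by simpa [lin] using hz' none))
  refine ⟨F, n, fun d h1 h2 g hg => h d h1 h2 g ⟨fun x => x, ?_⟩⟩
  rintro (_ | k)
  · simp [lin, hg]
  · simpa using hK k.1 k.2

theorem key_pp {n : ℕ} (ψ : PP R n) (x : Fin n → P) (hx : ∀ i, Loc (x i)) (hψ : x ∉ ψ.sat P) :
    ∃ (F : Finset V) (n : ℕ), ∀ d : V, F ⊆ par d → n ≤ d.1 → ∀ g : P →ₗ[R] P,
      (fun i => g (x i)) ∈ ψ.sat P → g (Yd d) d (d, 0) om0 = 0 := by
  classical
  have hlin : ∀ (z : Fin n ⊕ Fin ψ.m → P) j,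
      lin z (Finsupp.equivFunOnFinite.symm (Sum.elim (ψ.A j) (ψ.B j))) =
        ∑ i, ψ.A j i • z (Sum.inl i) + ∑ l, ψ.B j l • z (Sum.inr l) := by
    intro z j
    rw [lin_eq_sum _ _ Finset.univ (Finset.subset_univ _), Fintype.sum_sum_type]
    simp
  obtain ⟨F, m, h⟩ := key (X := Fin n ⊕ Fin ψ.m) (J := Fin ψ.k ⊕ Fin n)
    (Sum.elim (fun j => Finsupp.equivFunOnFinite.symm (Sum.elim (ψ.A j) (ψ.B j)))
      fun i => Finsupp.single (Sum.inl i) 1) (Sum.elim (fun _ => 0) x)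
    (by rintro (_ | i); exacts [loc_zero, hx i]) (by
      rintro ⟨z, hz⟩
      refine hψ ⟨fun l => z (Sum.inr l), fun j => ?_⟩
      have h1 : ∀ i, z (Sum.inl i) = x i := fun i => by simpa [lin] using hz (Sum.inr i)
      have h2 := hz (Sum.inl j)
      simp only [Sum.elim_inl, hlin, h1] at h2
      exact h2)
  refine ⟨F, m, fun d h1 h2 g ⟨y, hy⟩ => h d h1 h2 g ⟨Sum.elim (fun i => g (x i)) y, ?_⟩⟩
  rintro (j | i)
  · simp only [Sum.elim_inl, hlin, Sum.elim_inr, map_zero]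
    exact hy j
  · simp [lin]

theorem sat_map {S : Type} [Ring S] {M N : Type} [AddCommGroup M] [Module S M] [AddCommGroup N]
    [Module S N] (f : M →ₗ[S] N) {n : ℕ} {φ : PP S n} {x : Fin n → M} (h : x ∈ φ.sat M) :
    (fun i => f (x i)) ∈ φ.sat N := by
  obtain ⟨y, hy⟩ := h
  refine ⟨fun l => f (y l), fun j => ?_⟩
  simpa only [map_add, map_sum, map_smul, map_zero] using congrArg f (hy j)

noncomputable def v0 : V := (0, Classical.arbitrary Y)

theorem Yd_self (d : V) : Yd d d (d, 0) om0 = 1 := by simp [Yd]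

theorem exists_generic : ∃ H : IPI R, ∀ (n : ℕ) (φ ψ : PP R n) (M : IPI R),
    (∃ x ∈ φ.sat M.1, x ∉ ψ.sat M.1) → ∃ x ∈ φ.sat H.1, x ∉ ψ.sat H.1 := by
  classical
  obtain ⟨e, hea, hee, he⟩ := exists_hull algCompact_P (Yd v0)
  have hY : ∀ d : V, v0 ∈ par d → e (Yd d) = Yd d := by
    intro d hd
    obtain ⟨r, hr⟩ := exists_smul_Yd hd
    rw [← hr, map_smul, hea]
  have hI : Indec R (LinearMap.range e) := by
    refine ⟨⟨⟨Yd v0, Yd v0, hea⟩, 0, fun h => ?_⟩, fun A B hAB => ?_⟩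
    · have h1 : Yd v0 = 0 := congrArg Subtype.val h
      have h2 := Yd_self v0
      rw [h1] at h2
      exact zero_ne_one h2
    have half : ∀ A B : Submodule R (LinearMap.range e), ∀ hAB : IsCompl A B, B ≠ ⊥ →
        ¬ ∃ u : P →ₗ[R] P, u (((LinearMap.range e).subtype ∘ₗ A.projection B hAB ∘ₗ
          e.rangeRestrict) (Yd v0)) = Yd v0 := by
      rintro A B hAB hB ⟨u, hu⟩
      refine hB ((Submodule.eq_bot_iff _).2 fun b hb => ?_)
      obtain ⟨y, hy⟩ := b.2
      have h1 : e.rangeRestrict (e y) = b := Subtype.ext (by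
        show e (e y) = b.1
        rw [hee, hy])
      have h2 := he (u ∘ₗ (LinearMap.range e).subtype ∘ₗ A.projection B hAB ∘ₗ e.rangeRestrict)
        hu y (by
          simp only [LinearMap.comp_apply, h1]
          rw [(Submodule.projection_apply_eq_zero_iff hAB).2 hb, map_zero, map_zero])
      exact Subtype.ext (hy.symm.trans h2)
    by_contra hne
    rw [not_or] at hne
    obtain ⟨F1, n1, h1⟩ := key_end (loc_Yd v0) (half A B hAB hne.2)
    obtain ⟨F2, n2, h2⟩ := key_end (loc_Yd v0) (half B A hAB.symm hne.1)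
    obtain ⟨d, hd1, hd2, -⟩ := exists_vertex (insert v0 (F1 ∪ F2)) 0 (max n1 n2)
    have e1 := h1 d (fun x hx => hd2 (by simp [hx])) (le_trans (le_max_left _ _) hd1) _ rfl
    have e2 := h2 d (fun x hx => hd2 (by simp [hx])) (le_trans (le_max_right _ _) hd1) _ rfl
    have e3 := congrArg (fun z : LinearMap.range e => z.1 d (d, 0) om0)
      (Submodule.projection_add_projection_eq_self hAB (e.rangeRestrict (Yd d)))
    have e4 : (e.rangeRestrict (Yd d)).1 = Yd d := hY d (hd2 (Finset.mem_insert_self _ _))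
    simp only [LinearMap.comp_apply, Submodule.subtype_apply] at e1 e2
    simp only [Submodule.coe_add, P.add_apply, e1, e2, e4, Yd_self] at e3
    exact absurd e3 (by decide)
  refine ⟨⟨ModuleCat.of R (LinearMap.range e), hI,
    pureInjective_range (pureInjective_of_algCompact algCompact_P) e hee⟩, ?_⟩
  rintro n φ ψ M ⟨x, hφ, hψ⟩
  obtain ⟨x', h1, h2, h3⟩ := realize M.1 φ ψ x hφ hψ
  refine ⟨fun i => e.rangeRestrict (x' i), sat_map e.rangeRestrict h2, fun h4 => ?_⟩
  obtain ⟨F, m, h⟩ := key_pp ψ x' h1 h3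
  obtain ⟨d, hd1, hd2, -⟩ := exists_vertex (insert v0 F) 0 m
  have e1 := h d (fun x hx => hd2 (by simp [hx])) hd1 e
    (sat_map (LinearMap.range e).subtype h4)
  rw [hY d (hd2 (Finset.mem_insert_self _ _)), Yd_self] at e1
  exact one_ne_zero e1

open Classical in
/-- A test vector for the character at `v`. -/
noncomputable def f1 (v : V) : P := fun w b _ => if w = v ∧ b = (v, 1) then 1 else 0

theorem char_aux (v : V) (r : R) :
    ∀ f : P, (r • f) v (v, 1) om0 = (r • f1 v) v (v, 1) om0 * f v (v, 1) om0 := by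
  have h0 : f1 v v (v, 1) om0 = 1 := by simp [f1]
  induction mem_closure_gen r using Subring.closure_induction with
  | mem x hx =>
    intro f
    obtain ⟨(⟨u, c⟩ | a), rfl⟩ := hx
    · simp only [gen, Sum.elim_inl, mu_smul]
      split_ifs with h
      · subst h; rw [h0, mul_one]
      · simp
    · have : ∀ f : P, (t a • f) v (v, 1) om0 = 0 := by
        intro f
        rw [t_smul]
        split_ifs with h
        · refine Finset.sum_eq_zero fun b' hb' => ?_
          have := (Th_ne_zero _ _ _ (by simp) (Finsupp.mem_support_iff.1 hb')).1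
          rw [← h] at this
          exact absurd this (lt_irrefl _)
        · rfl
      simp only [gen, Sum.elim_inr, this, zero_mul]
  | zero => intro f; simp
  | one => intro f; simp [h0]
  | add x y _ _ hx hy => intro f; simp only [add_smul, P.add_apply, hx f, hy f, add_mul]
  | neg x _ hx => intro f; simp only [neg_smul, P.neg_apply, hx f, neg_mul]
  | mul x y _ _ hx hy =>
    intro f
    rw [mul_smul, mul_smul, hx (y • f), hx (y • f1 v), hy f, mul_assoc]

/-- The character at `v`. -/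
noncomputable def chi (v : V) : R →+* K where
  toFun r := (r • f1 v) v (v, 1) om0
  map_one' := by simp [f1]
  map_mul' x y := by rw [mul_smul, char_aux]
  map_zero' := by simp
  map_add' x y := by rw [add_smul, P.add_apply]

theorem chi_mu (v : V) : chi v (mu v 1) = 1 := by
  show (mu v 1 • f1 v) v (v, 1) om0 = 1
  simp [mu_smul, f1]

theorem exists_right_point (v : V) :
    ∃ W : IPI Rᵐᵒᵖ, ∃ w : W.1, MulOpposite.op (mu v 1) • w ≠ 0 := by
  let _ : Module Rᵐᵒᵖ K := Module.compHom K ((chi v).fromOpposite fun _ _ => mul_comm _ _)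
  have hs : ∀ (r : Rᵐᵒᵖ) (x : K), r • x = chi v r.unop * x := fun _ _ => rfl
  refine ⟨⟨ModuleCat.of Rᵐᵒᵖ K, ⟨inferInstanceAs (Nontrivial K), fun A B hAB => ?_⟩,
    pureInjective_of_algCompact (M := K)
      (algCompact_of_compact fun _ => continuous_of_discreteTopology)⟩, (1 : K), ?_⟩
  · by_contra hne
    rw [not_or] at hne
    have h1 : ∀ A : Submodule Rᵐᵒᵖ K, A ≠ ⊥ → (1 : K) ∈ A := by
      intro A hA
      obtain ⟨x, hx, hx0⟩ := (Submodule.ne_bot_iff A).1 hA
      rcases K_cases x with h | h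
      · exact absurd h hx0
      · exact h ▸ hx
    exact one_ne_zero ((Submodule.disjoint_def.1 hAB.disjoint) 1 (h1 A hne.1) (h1 B hne.2))
  · show MulOpposite.op (mu v 1) • (1 : K) ≠ 0
    rw [hs, MulOpposite.unop_op, chi_mu]
    decide

theorem mem_basicOpen {S : Type} [Ring S] {n : ℕ} (φ ψ : PP S n) (N : IPI S) :
    Quotient.mk (isoSetoid S) N ∈ basicOpen φ ψ ↔ ∃ x ∈ φ.sat N.1, x ∉ ψ.sat N.1 := by
  constructor
  · rintro ⟨M, hM, h⟩
    obtain ⟨e⟩ : Nonempty (M.1 ≃ₗ[S] N.1) := Quotient.exact hM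
    obtain ⟨x, h1, h2⟩ := Set.exists_of_ssubset h
    refine ⟨fun i => e (x i), sat_map e.toLinearMap h1, fun h3 => h2 ⟨?_, h1⟩⟩
    simpa using sat_map e.symm.toLinearMap h3
  · rintro ⟨x, h1, h2⟩
    exact ⟨N, rfl, Set.inter_subset_right, fun h => h2 (h h1).1⟩

/-- A space has a generic point if some point lies in every nonempty open set. -/
def HasGeneric (X : Type*) [TopologicalSpace X] : Prop :=
  ∃ x : X, ∀ U : Set X, IsOpen U → U.Nonempty → x ∈ U

theorem hasGeneric_left : HasGeneric (Zg R) := by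
  obtain ⟨H, hH⟩ := exists_generic
  refine ⟨Quotient.mk (isoSetoid R) H, fun U hU => ?_⟩
  induction hU with
  | basic U hU =>
    obtain ⟨n, φ, ψ, rfl⟩ := hU
    rintro ⟨p, hp⟩
    obtain ⟨M, rfl⟩ := Quotient.exists_rep p
    exact (mem_basicOpen φ ψ H).2 (hH n φ ψ M ((mem_basicOpen φ ψ M).1 hp))
  | univ => exact fun _ => Set.mem_univ _
  | inter U W _ _ h1 h2 => exact fun ⟨p, hp⟩ => ⟨h1 ⟨p, hp.1⟩, h2 ⟨p, hp.2⟩⟩
  | sUnion S _ h => exact fun ⟨p, U, hU, hp⟩ => ⟨U, hU, h U hU ⟨p, hp⟩⟩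

theorem not_hasGeneric_right : ¬ HasGeneric (Zg Rᵐᵒᵖ) := by
  rintro ⟨p, hp⟩
  obtain ⟨N, rfl⟩ := Quotient.exists_rep p
  obtain ⟨v, hv⟩ := right_vanishing N.1 N.2.2 N.2.1
  let φ : PP Rᵐᵒᵖ 1 := ⟨0, 0, fun _ _ => 0, fun _ _ => 0⟩
  let ψ : PP Rᵐᵒᵖ 1 := ⟨0, 1, fun _ _ => MulOpposite.op (mu v 1), fun _ _ => 0⟩
  obtain ⟨W, w, hw⟩ := exists_right_point v
  have h1 := hp (basicOpen φ ψ) (TopologicalSpace.GenerateOpen.basic _ ⟨1, φ, ψ, rfl⟩)
    ⟨_, (mem_basicOpen φ ψ W).2 ⟨fun _ => w, ⟨fun l => l.elim0, fun j => j.elim0⟩,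
      fun ⟨y, hy⟩ => hw (by simpa [ψ] using hy (0 : Fin 1))⟩⟩
  obtain ⟨x, -, hx⟩ := (mem_basicOpen φ ψ N).1 h1
  exact hx ⟨fun l => l.elim0, fun j => by simp [ψ, hv]⟩

theorem hasGeneric_quot {X : Type*} [TopologicalSpace X] :
    HasGeneric (SeparationQuotient X) ↔ HasGeneric X := by
  constructor
  · rintro ⟨x, hx⟩
    obtain ⟨x, rfl⟩ := SeparationQuotient.surjective_mk x
    refine ⟨x, fun U hU hne => ?_⟩
    rw [← SeparationQuotient.preimage_image_mk_open hU]
    exact hx _ (SeparationQuotient.isOpenMap_mk U hU) (hne.image _)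
  · rintro ⟨x, hx⟩
    exact ⟨SeparationQuotient.mk x, fun U hU hne => hx _
      (hU.preimage SeparationQuotient.continuous_mk)
      (hne.preimage SeparationQuotient.surjective_mk)⟩

theorem hasGeneric_homeo {X Y : Type*} [TopologicalSpace X] [TopologicalSpace Y] (e : X ≃ₜ Y)
    (h : HasGeneric X) : HasGeneric Y := by
  obtain ⟨x, hx⟩ := h
  exact ⟨e x, fun U hU hne => hx _ (hU.preimage e.continuous) (hne.preimage e.surjective)⟩

theorem not_homeomorphic :
    IsEmpty (SeparationQuotient (Zg Rᵐᵒᵖ) ≃ₜ SeparationQuotient (Zg R)) :=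
  ⟨fun e => not_hasGeneric_right
    (hasGeneric_quot.1 (hasGeneric_homeo e.symm (hasGeneric_quot.2 hasGeneric_left)))⟩

theorem mk_R : Cardinal.mk R = Cardinal.aleph 1 := by
  refine le_antisymm ?_ ?_
  · have h1 : (RR : Set (Module.End K P)) ⊆ Algebra.adjoin ℤ (Set.range genE) :=
      Subring.closure_le (t := (Algebra.adjoin ℤ (Set.range genE)).toSubring).2
        Algebra.subset_adjoin
    refine ((Cardinal.mk_le_mk_of_subset h1).trans (Algebra.cardinalMk_adjoin_le ℤ _)).trans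
      (max_le (max_le (mk_cnt _) (Cardinal.mk_range_le.trans ?_))
        Cardinal.aleph0_lt_aleph_one.le)
    rw [Cardinal.mk_sum, Cardinal.lift_id, Cardinal.lift_id]
    exact Cardinal.add_le_of_le Cardinal.aleph0_lt_aleph_one.le (mk_prod_le mk_V (mk_cnt _))
      ((Cardinal.mk_subtype_le _).trans mk_RA)
  · rw [← mk_Y]
    refine Cardinal.mk_le_of_injective (f := fun y : Y => mu (0, y) 1) fun y y' h => ?_
    by_contra hne
    have h1 : mu (0, y) 1 * mu (0, y') 1 = 0 :=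
      mu_mul_ne (fun h' => hne (congrArg Prod.snd h')) 1 1
    have h2 : mu (0, y) 1 = mu (0, y') 1 := h
    rw [← h2, mu_mul, mul_one] at h1
    have h3 := chi_mu (0, y)
    rw [h1, map_zero] at h3
    exact zero_ne_one h3

end Pool.Agent.Lib.MP_08e64a_al
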