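import Pool.Agent.Lib.MP_08e64a_al.Key

/-!
Every pp pair that is open on some left `R`-module is open on `P`.
-/

namespace Pool.Agent.Lib.MP_08e64a_al

open Filter

theorem K_cases (k : K) : k = 0 ∨ k = 1 := by revert k; decide

theorem cell_mul_of_one {N r : ℕ} {c : C} (hc : Dep N r c) {ω : Om} (h : c.1 ω = 1) :
    cell r (res N r ω) * c = cell r (res N r ω) := by
  refine Subtype.ext (funext fun ω' => ?_)
  show (cell r (res N r ω)).1 ω' * c.1 ω' = (cell r (res N r ω)).1 ω'
  rw [cell_apply]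
  split_ifs with h1
  · rw [hc _ _ h1, h, mul_one]
  · rw [zero_mul]

theorem cell_mul_of_zero {N r : ℕ} {c : C} (hc : Dep N r c) {ω : Om} (h : c.1 ω = 0) :
    cell r (res N r ω) * c = 0 := by
  refine Subtype.ext (funext fun ω' => ?_)
  show (cell r (res N r ω)).1 ω' * c.1 ω' = 0
  rw [cell_apply]
  split_ifs with h1
  · rw [hc _ _ h1, h, mul_zero]
  · rw [zero_mul]

theorem cell_eq_zero {N r : ℕ} {x : Win N} (h : ∀ ω, res N r ω ≠ x) : cell r x = 0 :=
  Subtype.ext (funext fun ω => by rw [cell_apply, if_neg (h ω)]; rfl)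

theorem cell_mul_cell {N r : ℕ} (x y : Win N) :
    cell r x * cell r y = if x = y then cell r x else 0 := by
  refine Subtype.ext (funext fun ω => ?_)
  show (cell r x).1 ω * (cell r y).1 ω = _
  rw [cell_apply, cell_apply]
  by_cases h : x = y
  · subst h
    rw [if_pos rfl, cell_apply]
    split_ifs <;> simp
  · rw [if_neg h]
    show _ = (0 : K)
    split_ifs with h1 h2
    · exact absurd (h1.symm.trans h2) h
    all_goals simp

/-- The idempotent of a cell. -/
noncomputable def eps {N : ℕ} (u : V) (x : Win N) : R := mu u (cell u.1 x)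

theorem sum_eps (N : ℕ) (u : V) : ∑ x : Win N, eps u x = mu u 1 := by
  simp only [eps]
  rw [← map_sum, sum_cell]

theorem eps_t_eps (N : ℕ) (a : Ar) (ω : Om) :
    eps a.1.1.2.1 (res N a.1.1.2.1.1 ω) * t a * eps a.1.1.1 (res N a.1.1.1.1 (iota a.1.1 ω)) =
      eps a.1.1.2.1 (res N a.1.1.2.1.1 ω) * t a := by
  rw [mul_assoc, eps, eps, t_mu, ← mul_assoc, mu_mul, cell_mul_of_one]
  · intro ω1 ω2 h
    rw [rho_apply, rho_apply, cell_apply, cell_apply, (res_iota (rank_lt a.2.1).le).2 h]
  · rw [rho_apply, cell_apply, if_pos rfl]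

/-- The idempotent of a finite set of vertices. -/
noncomputable def EE (F : Finset V) : R := ∑ u ∈ F, mu u 1

theorem EE_mul_mu {F : Finset V} {u : V} (hu : u ∈ F) (c : C) : EE F * mu u c = mu u c := by
  rw [EE, Finset.sum_mul, Finset.sum_eq_single u, mu_mul, one_mul]
  · intro w _ hw; exact mu_mul_ne hw _ _
  · intro h; exact absurd hu h

theorem mu_mul_EE {F : Finset V} {u : V} (hu : u ∈ F) (c : C) : mu u c * EE F = mu u c := by
  rw [EE, Finset.mul_sum, Finset.sum_eq_single u, mu_mul, mul_one]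
  · intro w _ hw; exact mu_mul_ne hw.symm _ _
  · intro h; exact absurd hu h

theorem EE_mul_EE (F : Finset V) : EE F * EE F = EE F := by
  conv_lhs => rw [EE, Finset.sum_mul]
  exact Finset.sum_congr rfl fun u hu => mu_mul_EE hu 1

theorem gen_EE {F : Finset V} {T : Finset Ar} {N : ℕ} (hF : ∀ d ∈ F, par d ⊆ F)
    (hT : ∀ a ∈ T, a.1.1.2.1 ∈ F) {g : R} (hg : g ∈ Gen F T N) :
    g * (1 - EE F) = 0 ∧ (1 - EE F) * g = 0 := by
  rcases hg with ⟨u, hu, c, -, rfl⟩ | ⟨a, ha, rfl⟩
  · rw [mul_sub, sub_mul, mul_one, one_mul, mu_mul_EE hu, EE_mul_mu hu, sub_self]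
    exact ⟨rfl, rfl⟩
  · have h1 : t a * mu a.1.1.1 1 = t a := by rw [t_mu, map_one, mu_one_t]
    have h2 : t a * EE F = t a := by
      rw [← h1, mul_assoc, mu_mul_EE (hF _ (hT a ha) a.2.1)]
    have h3 : EE F * t a = t a := by
      rw [← mu_one_t a, ← mul_assoc, EE_mul_mu (hT a ha)]
    rw [mul_sub, sub_mul, mul_one, one_mul, h2, h3, sub_self]
    exact ⟨rfl, rfl⟩

theorem t_smul_row (a : Ar) (f : P) (b : V × ℕ) (h : a.1.1.2.1.1 < b.1.1) (I : ℕ)
    (hI : ∀ i, I ≤ i → (task b.1.2).2 (a.1, b.2) i = 0) (ω : Om) :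
    (t a • f) a.1.1.2.1 b ω = ∑ i ∈ Finset.range I,
      ((task b.1.2).2 (a.1, b.2) i).1 ω * f a.1.1.1 (b.1, i) (iota a.1.1 ω) := by
  classical
  have hb : b ≠ (a.1.1.2.1, 0) := by
    rintro rfl
    exact lt_irrefl _ h
  rw [t_smul, if_pos rfl, Finset.sum_subset
    (s₂ := (Finset.range I).image fun i => (b.1, i)), Finset.sum_image]
  · exact Finset.sum_congr rfl fun i _ => by rw [Th_of_lt _ _ h]
  · intro i _ i' _ h; exact (Prod.ext_iff.1 h).2
  · intro b' hb'
    have h1 := Finsupp.mem_support_iff.1 hb'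
    obtain ⟨-, h2⟩ := Th_ne_zero _ _ _ hb h1
    obtain ⟨j, i⟩ := b'
    simp only at h2
    subst h2
    rw [Th_of_lt _ _ h] at h1
    refine Finset.mem_image.2 ⟨i, Finset.mem_range.2 ?_, rfl⟩
    by_contra h3
    exact h1 (hI i (not_lt.1 h3))
  · intro b' _ hb'
    rw [Finsupp.notMem_support_iff.1 hb']
    exact zero_mul _

section

variable {M : Type} [AddCommGroup M] [Module R M] [Module K M]

theorem smul_K (r : R) (k : K) (x : M) : r • k • x = k • r • x :=
  ZMod.map_smul (DistribSMul.toAddMonoidHom M r) k x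

theorem eps_mu_smul {N : ℕ} (u : V) {c : C} (hc : Dep N u.1 c) (ω : Om) (x : M) :
    eps u (res N u.1 ω) • mu u c • x = c.1 ω • eps u (res N u.1 ω) • x := by
  rw [← mul_smul, eps, mu_mul]
  rcases K_cases (c.1 ω) with h | h
  · rw [cell_mul_of_zero hc h, h, map_zero, zero_smul, zero_smul]
  · rw [cell_mul_of_one hc h, h, one_smul]

omit [Module K M] in
theorem ext_eps {F : Finset V} {N : ℕ} {x y : M}
    (h1 : ∀ u ∈ F, ∀ ω, eps u (res N u.1 ω) • x = eps u (res N u.1 ω) • y)
    (h2 : (1 - EE F) • x = (1 - EE F) • y) : x = y := by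
  have h3 : EE F • x = EE F • y := by
    rw [EE, Finset.sum_smul, Finset.sum_smul]
    refine Finset.sum_congr rfl fun u hu => ?_
    rw [← sum_eps N, Finset.sum_smul, Finset.sum_smul]
    refine Finset.sum_congr rfl fun z _ => ?_
    by_cases hz : ∃ ω, res N u.1 ω = z
    · obtain ⟨ω, rfl⟩ := hz
      exact h1 u hu ω
    · rw [eps, cell_eq_zero fun ω h => hz ⟨ω, h⟩, map_zero, zero_smul, zero_smul]
  rw [sub_smul, sub_smul, one_smul, one_smul, h3] at h2
  exact sub_left_injective h2

theorem exists_stable {F : Finset V} {T : Finset Ar} {N : ℕ} (hF : ∀ d ∈ F, par d ⊆ F)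
    (hT : ∀ a ∈ T, a.1.1.2.1 ∈ F) (s : Finset M) :
    ∃ U : Submodule K M, U.FG ∧ (∀ z ∈ s, z ∈ U) ∧ ∀ g ∈ Gen F T N, ∀ w ∈ U, g • w ∈ U := by
  classical
  let Good : M → Prop := fun z =>
    ∃ U : Submodule K M, U.FG ∧ z ∈ U ∧ ∀ g ∈ Gen F T N, ∀ w ∈ U, g • w ∈ U
  have hfin : ∀ s : Finset M, (∀ z ∈ s, Good z) →
      ∃ U : Submodule K M, U.FG ∧ (∀ z ∈ s, z ∈ U) ∧ ∀ g ∈ Gen F T N, ∀ w ∈ U, g • w ∈ U := by
    intro s
    induction s using Finset.induction_on with
    | empty => exact fun _ => ⟨⊥, Submodule.fg_bot, by simp, by simp⟩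
    | insert z s _ ih =>
      intro h
      obtain ⟨U, h1, h2, h3⟩ := ih fun w hw => h w (Finset.mem_insert_of_mem hw)
      obtain ⟨U', h1', h2', h3'⟩ := h z (Finset.mem_insert_self _ _)
      refine ⟨U ⊔ U', h1.sup h1', fun w hw => ?_, fun g hg w hw => ?_⟩
      · rcases Finset.mem_insert.1 hw with rfl | hw
        · exact Submodule.mem_sup_right h2'
        · exact Submodule.mem_sup_left (h2 w hw)
      · obtain ⟨a, ha, b, hb, rfl⟩ := Submodule.mem_sup.1 hw
        rw [smul_add]
        exact Submodule.add_mem_sup (h3 g hg a ha) (h3' g hg b hb)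
  have hsum : ∀ {ι : Type} (s : Finset ι) (f : ι → M), (∀ i ∈ s, Good (f i)) →
      Good (∑ i ∈ s, f i) := by
    intro ι s f h
    obtain ⟨U, h1, h2, h3⟩ := hfin (s.image f) (by
      intro z hz
      obtain ⟨i, hi, rfl⟩ := Finset.mem_image.1 hz
      exact h i hi)
    exact ⟨U, h1, Submodule.sum_mem _ fun i hi => h2 _ (Finset.mem_image_of_mem _ hi), h3⟩
  have hext : ∀ (z : M) (U : Submodule K M), U.FG → (∀ g ∈ Gen F T N, ∀ w ∈ U, g • w ∈ U) →
      (∀ g ∈ Gen F T N, g • z = z ∨ g • z ∈ U) → Good z := by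
    intro z U h1 h2 h3
    refine ⟨(K ∙ z) ⊔ U, (Submodule.fg_span_singleton z).sup h1,
      Submodule.mem_sup_left (Submodule.mem_span_singleton_self z), fun g hg w hw => ?_⟩
    obtain ⟨a, ha, b, hb, rfl⟩ := Submodule.mem_sup.1 hw
    obtain ⟨k, rfl⟩ := Submodule.mem_span_singleton.1 ha
    rw [smul_add, smul_K]
    refine add_mem (Submodule.smul_mem _ _ ?_) (Submodule.mem_sup_right (h2 g hg b hb))
    rcases h3 g hg with h | h
    · rw [h]; exact Submodule.mem_sup_left (Submodule.mem_span_singleton_self z)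
    · exact Submodule.mem_sup_right h
  have hatom : ∀ u ∈ F, ∀ (x : Win N) (z : M), Good (eps u x • z) := by
    intro u
    refine (wf_up (fun u : V => u.1) (F.sup Prod.fst)).induction
      (C := fun u => u ∈ F → ∀ (x : Win N) (z : M), Good (eps u x • z)) u ?_
    intro u ih hu x z
    obtain ⟨U, h1, h2, h3⟩ := hfin (T.image fun a => t a • eps u x • z) (by
      intro w hw
      obtain ⟨a, ha, rfl⟩ := Finset.mem_image.1 hw
      by_cases hua : u = a.1.1.1
      · rw [← mu_one_t a, mul_smul, ← sum_eps N, Finset.sum_smul]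
        exact hsum _ _ fun y _ => ih _ ⟨hua ▸ rank_lt a.2.1,
          Finset.le_sup (f := Prod.fst) (hT a ha)⟩ (hT a ha) y _
      · rw [← mul_smul, eps, t_mu_ne a hua, zero_smul]
        exact ⟨⊥, Submodule.fg_bot, by simp, by simp⟩)
    refine hext _ U h1 h3 fun g hg => ?_
    rcases hg with ⟨w, hw, c, hc, rfl⟩ | ⟨a, ha, rfl⟩
    · by_cases hwu : w = u
      · subst hwu
        by_cases hx : ∃ ω, res N w.1 ω = x
        · obtain ⟨ω, rfl⟩ := hx
          rw [← mul_smul, eps, mu_mul, mul_comm]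
          rcases K_cases (c.1 ω) with h | h
          · rw [cell_mul_of_zero hc h, map_zero, zero_smul]
            exact Or.inr (zero_mem _)
          · rw [cell_mul_of_one hc h]
            exact Or.inl rfl
        · rw [eps, cell_eq_zero fun ω h => hx ⟨ω, h⟩, map_zero, zero_smul, smul_zero]
          exact Or.inl rfl
      · rw [← mul_smul, eps, mu_mul_ne hwu, zero_smul]
        exact Or.inr (zero_mem _)
    · exact Or.inr (h2 _ (Finset.mem_image_of_mem _ ha))
  refine hfin s fun z _ => ?_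
  have h1 : Good ((1 - EE F) • z) := hext _ ⊥ Submodule.fg_bot (by simp) fun g hg =>
    Or.inr (by rw [← mul_smul, (gen_EE hF hT hg).1, zero_smul]; exact zero_mem _)
  have h2 : Good (EE F • z) := by
    rw [EE, Finset.sum_smul]
    refine hsum _ _ fun u hu => ?_
    rw [← sum_eps N, Finset.sum_smul]
    exact hsum _ _ fun x _ => hatom u hu x z
  have h3 := hsum Finset.univ ![(1 - EE F) • z, EE F • z] (by
    intro i _
    fin_cases i
    · exact h1
    · exact h2)
  simpa [sub_smul] using h3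

omit [Module R M] in
theorem exists_coord (U : Submodule K M) (hU : U.FG) :
    ∃ (I : ℕ) (crd : ℕ → M →+ K) (vec : ℕ → M), (∀ i, vec i ∈ U) ∧
      ∀ w ∈ U, ∑ i ∈ Finset.range I, crd i w • vec i = w := by
  have : Module.Finite K U := Module.Finite.iff_fg.2 hU
  let b := Module.finBasis K U
  obtain ⟨p, hp⟩ := U.subtype.exists_leftInverse_of_injective U.ker_subtype
  refine ⟨Module.finrank K U,
    fun i => if h : i < Module.finrank K U then (b.coord ⟨i, h⟩ ∘ₗ p).toAddMonoidHom else 0,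
    fun i => if h : i < Module.finrank K U then (b ⟨i, h⟩).1 else 0, fun i => ?_,
    fun w hw => ?_⟩
  · beta_reduce
    split_ifs
    · exact (b _).2
    · exact zero_mem _
  · rw [Finset.sum_range]
    have h1 : p w = ⟨w, hw⟩ := congrArg (fun f => f ⟨w, hw⟩) hp
    have h2 := congrArg Subtype.val (b.sum_repr ⟨w, hw⟩)
    rw [AddSubmonoidClass.coe_finsetSum] at h2
    simpa [h1] using h2

theorem exists_alpha_pi {F : Finset V} {T : Finset Ar} {N : ℕ} (hF : ∀ d ∈ F, par d ⊆ F)
    (hT : ∀ a ∈ T, a.1.1.2.1 ∈ F) (hsep : Sep T N) (U : Submodule K M) (hU : U.FG)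
    (hst : ∀ g ∈ Gen F T N, ∀ w ∈ U, g • w ∈ U) :
    ∃ (α : M →+ P) (π : P →+ M), (∀ x, Loc (α x)) ∧
      (∀ g ∈ Gen F T N, ∀ x ∈ U, α (g • x) = g • α x) ∧
      (∀ g ∈ Gen F T N, ∀ f, π (g • f) = g • π f) ∧ ∀ x ∈ U, π (α x) = x := by
  classical
  obtain ⟨I, crd, vec, hvec, hcrd⟩ := exists_coord U hU
  obtain ⟨θ, hθ⟩ : ∃ θ : (RA × ℕ) →₀ (ℕ →₀ C), ∀ a ∈ T, ∀ i i', θ (a.1, i) i' =
      if i < I ∧ i' < I then
        ofWin a.1.1.2.1.1 (fun x : Win N => crd i (eps a.1.1.2.1 x • t a • vec i')) else 0 := by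
    let inner : Ar × ℕ → ℕ →₀ C := fun p => Finsupp.onFinset (Finset.range I)
      (fun i' => if i' < I then ofWin p.1.1.1.2.1.1
        (fun x : Win N => crd p.2 (eps p.1.1.1.2.1 x • t p.1 • vec i')) else 0)
      (fun i' h => Finset.mem_range.2 (by by_contra h'; exact h (if_neg h')))
    let θ' : (Ar × ℕ) →₀ (ℕ →₀ C) := Finsupp.onFinset (T ×ˢ Finset.range I)
      (fun p => if p ∈ T ×ˢ Finset.range I then inner p else 0)
      (fun p h => by by_contra h'; exact h (if_neg h'))
    let emb : Ar × ℕ ↪ RA × ℕ := ⟨fun p => (p.1.1, p.2), fun p q h =>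
      Prod.ext (Subtype.ext (Prod.ext_iff.1 h).1) (Prod.ext_iff.1 h).2⟩
    refine ⟨Finsupp.embDomain emb θ', fun a ha i i' => ?_⟩
    have : Finsupp.embDomain emb θ' (a.1, i) = θ' (a, i) :=
      Finsupp.embDomain_apply_self emb θ' (a, i)
    rw [this]
    by_cases hi : i < I <;> simp [θ', inner, ha, hi]
  obtain ⟨j, -, hFj, hj⟩ := exists_vertex F θ 0
  have hjF : j ∉ F := fun h => lt_irrefl _ (rank_lt (hFj h))
  obtain ⟨bp, h1, -, h3⟩ := exists_bp F T N (F.sup Prod.fst) hT hsep (fun _ x => ext x)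
    (fun u _ ω => res_ext_res N u.1 ω)
  replace h3 := fun a ha => h3 a ha (Finset.le_sup (f := Prod.fst) (hT a ha))
  have hepsG : ∀ u ∈ F, ∀ x : Win N, eps u x ∈ Gen F T N := fun u hu x =>
    Or.inl ⟨u, hu, _, dep_cell _ _, rfl⟩
  have hEU : ∀ x ∈ U, (1 - EE F) • x ∈ U := by
    intro x hx
    rw [sub_smul, one_smul, EE, Finset.sum_smul]
    exact sub_mem hx (Submodule.sum_mem _ fun u hu =>
      hst _ (Or.inl ⟨u, hu, 1, fun _ _ _ => rfl, rfl⟩) x hx)
  let loc : V → Om → R := fun u ω =>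
    if u ∈ F then eps u (res N u.1 ω) else if u = j then 1 - EE F else 0
  let α : M →+ P :=
    { toFun := fun x u b ω => if b.1 = j ∧ b.2 < I then crd b.2 (loc u ω • x) else 0
      map_zero' := P.ext fun u b ω => by simp
      map_add' := fun x y => P.ext fun u b ω => by
        simp only [P.add_apply]; split_ifs <;> simp }
  have hα : ∀ x u b ω, α x u b ω =
      if b.1 = j ∧ b.2 < I then crd b.2 (loc u ω • x) else 0 := fun _ _ _ _ => rfl
  let val : V → Om → P →+ M := fun u ω =>
    { toFun := fun f => ∑ i ∈ Finset.range I, f u (j, i) ω • vec i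
      map_zero' := by simp
      map_add' := fun f g => by simp [add_smul, Finset.sum_add_distrib] }
  have hval : ∀ u ω f, val u ω f = ∑ i ∈ Finset.range I, f u (j, i) ω • vec i :=
    fun _ _ _ => rfl
  let π : P →+ M :=
    { toFun := fun f => ∑ u ∈ F, ∑ x : Win N, eps u x • val u (bp u x) f +
        (1 - EE F) • val j om0 f
      map_zero' := by simp
      map_add' := fun f g => by
        simp only [map_add, smul_add, Finset.sum_add_distrib]
        abel }
  have hπ : ∀ f, π f = ∑ u ∈ F, ∑ x : Win N, eps u x • val u (bp u x) f +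
        (1 - EE F) • val j om0 f := fun _ => rfl
  have hπ1 : ∀ f, ∀ u ∈ F, ∀ x : Win N, eps u x • π f = eps u x • val u (bp u x) f := by
    intro f u hu x
    rw [hπ, smul_add, ← mul_smul, (gen_EE hF hT (hepsG u hu x)).1, zero_smul, add_zero,
      Finset.smul_sum, Finset.sum_eq_single u, Finset.smul_sum, Finset.sum_eq_single x,
      ← mul_smul, eps, mu_mul, cell_mul_cell, if_pos rfl]
    · intro y _ hy
      rw [← mul_smul, eps, eps, mu_mul, cell_mul_cell, if_neg hy.symm, map_zero, zero_smul]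
    · simp
    · intro w _ hw
      rw [Finset.smul_sum]
      refine Finset.sum_eq_zero fun y _ => ?_
      rw [← mul_smul, eps, eps, mu_mul_ne hw.symm, zero_smul]
    · intro h; exact absurd hu h
  have hEE : (1 - EE F) * (1 - EE F) = 1 - EE F := by
    rw [mul_sub, mul_one, sub_mul, one_mul, EE_mul_EE, sub_self, sub_zero]
  have hπ2 : ∀ f, (1 - EE F) • π f = (1 - EE F) • val j om0 f := by
    intro f
    rw [hπ, smul_add, ← mul_smul, hEE, Finset.smul_sum, Finset.sum_eq_zero, zero_add]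
    intro u hu
    rw [Finset.smul_sum]
    refine Finset.sum_eq_zero fun y _ => ?_
    rw [← mul_smul, (gen_EE hF hT (hepsG u hu y)).2, zero_smul]
  have hrow : ∀ a ∈ T, ∀ (f : P) i ω, (t a • f) a.1.1.2.1 (j, i) ω =
      if i < I then crd i (eps a.1.1.2.1 (res N a.1.1.2.1.1 ω) • t a •
        val a.1.1.1 (iota a.1.1 ω) f) else 0 := by
    intro a ha f i ω
    rw [t_smul_row a f (j, i) (rank_lt (hFj (hT a ha))) I (fun i' hi' => by
      rw [hj, hθ a ha, if_neg (by omega)])]
    simp only [hj]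
    split_ifs with hi
    · rw [hval, Finset.smul_sum, Finset.smul_sum, map_sum]
      refine Finset.sum_congr rfl fun i' hi' => ?_
      rw [hθ a ha, if_pos ⟨hi, Finset.mem_range.1 hi'⟩, ofWin_apply, smul_K, smul_K,
        ZMod.map_smul, smul_eq_mul, mul_comm]
    · refine Finset.sum_eq_zero fun i' _ => ?_
      rw [hθ a ha, if_neg (fun h => hi h.1)]
      exact zero_mul _
  have hvalU : ∀ u ω f, val u ω f ∈ U := fun u ω f => by
    rw [hval]
    exact Submodule.sum_mem _ fun i _ => Submodule.smul_mem _ _ (hvec i)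
  have hvalα : ∀ x ∈ U, ∀ u ω, (u ∈ F ∨ u = j) → val u ω (α x) = loc u ω • x := by
    intro x hx u ω hu
    have : loc u ω • x ∈ U := by
      simp only [loc]
      split_ifs with h4 h5
      · exact hst _ (hepsG u h4 _) x hx
      · exact hEU x hx
      · rw [zero_smul]; exact zero_mem _
    rw [hval, ← hcrd _ this]
    refine Finset.sum_congr rfl fun i hi => ?_
    rw [hα, if_pos ⟨rfl, Finset.mem_range.1 hi⟩]
  refine ⟨α, π, fun x => ?_, fun g hg x hx => ?_, fun g hg f => ?_, fun x hx => ?_⟩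
  · refine ⟨insert j F ×ˢ ({j} ×ˢ Finset.range I), fun u b ω h => ?_, fun u b => ?_⟩
    · rw [hα]
      split_ifs with h4
      · have h5 : u ∉ insert j F := fun h5 => h (by
          simp only [Finset.mem_product, Finset.mem_singleton, Finset.mem_range]
          exact ⟨h5, h4⟩)
        rw [Finset.mem_insert, not_or] at h5
        simp [loc, h5.1, h5.2]
      · rfl
    · refine ⟨N, fun ω ω' h => ?_⟩
      have : res N u.1 ω = res N u.1 ω' := res_eq_iff.2 fun i j hi hj => h i j (by omega) hj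
      simp only [hα, loc, this]
  · have hgE := (gen_EE hF hT hg).2
    refine P.ext fun w b ω => ?_
    rcases hg with ⟨u, hu, c, hc, rfl⟩ | ⟨a, ha, rfl⟩
    · rw [mu_smul, hα, hα]
      by_cases hwu : w = u
      · subst hwu
        simp only [loc, if_pos hu, if_true]
        rw [eps_mu_smul w hc, ZMod.map_smul, smul_eq_mul]
        split_ifs <;> simp
      · have : loc w ω • mu u c • x = 0 := by
          simp only [loc]
          split_ifs
          · rw [← mul_smul, eps, mu_mul_ne hwu, zero_smul]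
          · rw [← mul_smul, hgE, zero_smul]
          · rw [zero_smul]
        rw [this, if_neg hwu]
        simp
    · by_cases hw : w = a.1.1.2.1
      · subst hw
        by_cases hb : b.1 = j
        · obtain ⟨j', i⟩ := b
          simp only at hb
          subst hb
          have hs : a.1.1.1 ∈ F := hF _ (hT a ha) a.2.1
          rw [hrow a ha, hα, hvalα x hx _ _ (Or.inl hs)]
          simp only [loc, if_pos hs, if_pos (hT a ha), true_and]
          rw [← mul_smul, ← mul_smul, ← mul_smul, eps_t_eps]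
        · rw [hα, if_neg (fun h => hb h.1), t_smul, if_pos rfl, eq_comm]
          refine Finset.sum_eq_zero fun b' hb' => ?_
          rw [hα, if_neg, mul_zero]
          rintro ⟨h4, -⟩
          by_cases hb0 : b = (a.1.1.2.1, 0)
          · rw [hb0, Th_tgt, Finsupp.support_single _ one_ne_zero, Finset.mem_singleton] at hb'
            rw [hb'] at h4
            exact hjF (h4 ▸ hF _ (hT a ha) a.2.2)
          · exact hb ((Th_ne_zero _ _ _ hb0 (Finsupp.mem_support_iff.1 hb')).2.symm.trans h4)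
      · have : loc w ω • t a • x = 0 := by
          simp only [loc]
          split_ifs
          · rw [← mul_smul, eps, mu_t_ne a hw, zero_smul]
          · rw [← mul_smul, hgE, zero_smul]
          · rw [zero_smul]
        rw [hα, this, t_smul, if_neg hw]
        simp
  · have hgE := (gen_EE hF hT hg).2
    refine ext_eps (F := F) (N := N) (fun w hw ω => ?_) ?_
    · rw [hπ1 _ w hw]
      rcases hg with ⟨u, hu, c, hc, rfl⟩ | ⟨a, ha, rfl⟩
      · by_cases hwu : w = u
        · subst hwu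
          rw [eps_mu_smul w hc, hπ1 _ w hw, ← smul_K, hval, hval, Finset.smul_sum (r := c.1 ω)]
          congr 1
          refine Finset.sum_congr rfl fun i _ => ?_
          rw [mu_smul, if_pos rfl, hc _ _ (h1 w hw ω), mul_smul]
        · rw [← mul_smul, eps, mu_mul_ne hwu, zero_smul, hval, Finset.sum_eq_zero, smul_zero]
          intro i _
          rw [mu_smul, if_neg hwu, zero_smul]
      · by_cases hwa : w = a.1.1.2.1
        · subst hwa
          have hs : a.1.1.1 ∈ F := hF _ (hT a ha) a.2.1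
          have e1 : ∀ ω', val a.1.1.2.1 ω' (t a • f) =
              eps a.1.1.2.1 (res N a.1.1.2.1.1 ω') • t a • val a.1.1.1 (iota a.1.1 ω') f := by
            intro ω'
            rw [hval, ← hcrd _ (hst _ (hepsG _ hw _) _
              (hst _ (Or.inr ⟨a, ha, rfl⟩) _ (hvalU _ _ _)))]
            refine Finset.sum_congr rfl fun i hi => ?_
            rw [hrow a ha, if_pos (Finset.mem_range.1 hi)]
          rw [e1, h1 _ hw, ← h3 a ha, ← mul_smul, eps, mu_mul, cell_mul_cell, if_pos rfl, ← eps,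
            ← mul_smul, ← mul_smul, ← eps_t_eps, mul_smul, mul_smul, mul_smul, mul_smul,
            hπ1 _ _ hs]
        · rw [← mul_smul, eps, mu_t_ne a hwa, zero_smul, hval, Finset.sum_eq_zero, smul_zero]
          intro i _
          rw [t_smul, if_neg hwa, zero_smul]
    · rw [hπ2, ← mul_smul, hgE, zero_smul, hval, Finset.sum_eq_zero, smul_zero]
      intro i _
      rcases hg with ⟨u, hu, c, hc, rfl⟩ | ⟨a, ha, rfl⟩
      · rw [mu_smul, if_neg, zero_smul]
        rintro rfl; exact hjF hu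
      · rw [t_smul, if_neg, zero_smul]
        rintro rfl; exact hjF (hT a ha)
  · refine ext_eps (F := F) (N := N) (fun w hw ω => ?_) ?_
    · rw [hπ1 _ w hw, hvalα x hx _ _ (Or.inl hw)]
      simp only [loc, if_pos hw]
      rw [h1 w hw, ← mul_smul, eps, mu_mul, cell_mul_cell, if_pos rfl]
    · rw [hπ2, hvalα x hx _ _ (Or.inr rfl)]
      simp only [loc, if_neg hjF, if_true]
      rw [← mul_smul, hEE]

end

theorem realize (M : Type) [AddCommGroup M] [Module R M] {n : ℕ} (φ ψ : PP R n)
    (x : Fin n → M) (hφ : x ∈ φ.sat M) (hψ : x ∉ ψ.sat M) :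
    ∃ x' : Fin n → P, (∀ i, Loc (x' i)) ∧ x' ∈ φ.sat P ∧ x' ∉ ψ.sat P := by
  classical
  let _ : Module K M := AddCommGroup.zmodModule (n := 2) fun z => by
    rw [← Nat.cast_smul_eq_nsmul R, Nat.cast_ofNat, two_eq_zero, zero_smul]
  obtain ⟨y, hy⟩ := hφ
  obtain ⟨F, T, -, hF, hT, hev⟩ := exists_stage
    (Finset.univ.image (fun p : Fin φ.k × Fin n => φ.A p.1 p.2) ∪
      Finset.univ.image (fun p : Fin φ.k × Fin φ.m => φ.B p.1 p.2) ∪
      Finset.univ.image (fun p : Fin ψ.k × Fin n => ψ.A p.1 p.2) ∪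
      Finset.univ.image (fun p : Fin ψ.k × Fin ψ.m => ψ.B p.1 p.2)) ∅
  obtain ⟨N, hsep, hcl⟩ := hev.exists
  obtain ⟨U, hU, hsU, hst⟩ := exists_stable (N := N) hF hT
    (Finset.univ.image x ∪ Finset.univ.image y)
  obtain ⟨α, π, h1, h2, h3, h4⟩ := exists_alpha_pi hF hT hsep U hU hst
  have h2' : ∀ r ∈ Subring.closure (Gen F T N), ∀ z ∈ U, r • z ∈ U ∧ α (r • z) = r • α z := by
    intro r hr
    induction hr using Subring.closure_induction with
    | mem g hg => exact fun z hz => ⟨hst g hg z hz, h2 g hg z hz⟩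
    | zero => intro z _; simp
    | one => intro z hz; simpa using hz
    | add a b _ _ ha hb =>
      intro z hz
      rw [add_smul, add_smul, map_add, (ha z hz).2, (hb z hz).2]
      exact ⟨add_mem (ha z hz).1 (hb z hz).1, rfl⟩
    | neg a _ ha =>
      intro z hz
      rw [neg_smul, neg_smul, map_neg, (ha z hz).2]
      exact ⟨neg_mem (ha z hz).1, rfl⟩
    | mul a b _ _ ha hb =>
      intro z hz
      rw [mul_smul, mul_smul, (ha _ (hb z hz).1).2, (hb z hz).2]
      exact ⟨(ha _ (hb z hz).1).1, rfl⟩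
  have h3' : ∀ r ∈ Subring.closure (Gen F T N), ∀ f, π (r • f) = r • π f := by
    intro r hr
    induction hr using Subring.closure_induction with
    | mem g hg => exact h3 g hg
    | zero => intro z; simp
    | one => intro z; simp
    | add a b _ _ ha hb => intro z; rw [add_smul, add_smul, map_add, ha, hb]
    | neg a _ ha => intro z; rw [neg_smul, neg_smul, map_neg, ha]
    | mul a b _ _ ha hb => intro z; rw [mul_smul, mul_smul, ha, hb]
  have hxU : ∀ i, x i ∈ U := fun i => hsU _ (by simp)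
  have hyU : ∀ l, y l ∈ U := fun l => hsU _ (by simp)
  refine ⟨fun i => α (x i), fun i => h1 _, ⟨fun l => α (y l), fun j => ?_⟩, fun ⟨y', hy'⟩ =>
    hψ ⟨fun l => π (y' l), fun j => ?_⟩⟩
  · have := congrArg α (hy j)
    rw [map_add, map_sum, map_sum, map_zero] at this
    rw [← this]
    congr 1
    · refine Finset.sum_congr rfl fun i _ => ((h2' _ (hcl _ ?_) _ (hxU i)).2).symm
      simp only [Finset.mem_union, Finset.mem_image]
      exact Or.inl (Or.inl (Or.inl ⟨(j, i), Finset.mem_univ _, rfl⟩))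
    · refine Finset.sum_congr rfl fun l _ => ((h2' _ (hcl _ ?_) _ (hyU l)).2).symm
      simp only [Finset.mem_union, Finset.mem_image]
      exact Or.inl (Or.inl (Or.inr ⟨(j, l), Finset.mem_univ _, rfl⟩))
  · have := congrArg π (hy' j)
    rw [map_add, map_sum, map_sum, map_zero] at this
    rw [← this]
    congr 1
    · refine Finset.sum_congr rfl fun i _ => ?_
      rw [h3' _ (hcl _ ?_), h4 _ (hxU i)]
      simp only [Finset.mem_union, Finset.mem_image]
      exact Or.inl (Or.inr ⟨(j, i), Finset.mem_univ _, rfl⟩)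
    · refine Finset.sum_congr rfl fun l _ => (h3' _ (hcl _ ?_) _).symm
      simp only [Finset.mem_union, Finset.mem_image]
      exact Or.inr ⟨(j, l), Finset.mem_univ _, rfl⟩

end Pool.Agent.Lib.MP_08e64a_al
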