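import Mathlib

/-!
Combinatorial lemmas: recursion downwards along a rank, finite and countable closures.
-/

namespace Pool.Agent.Lib.MP_08e64a_al

theorem exists_rec {V α : Type*} [Inhabited α] (r : V → V → Prop) (hr : WellFounded r)
    (Q : V → α → (V → α) → Prop) (hex : ∀ u g, ∃ a, Q u a g)
    (hdep : ∀ u a g g', (∀ w, r w u → g w = g' w) → Q u a g → Q u a g') :
    ∃ g : V → α, ∀ u, Q u (g u) g := by
  classical
  let F : ∀ u, (∀ w, r w u → α) → α := fun u G =>
    (hex u fun w => if h : r w u then G w h else default).choose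
  refine ⟨hr.fix F, fun u => ?_⟩
  have h1 : hr.fix F u = F u fun w _ => hr.fix F w := hr.fix_eq F u
  rw [h1]
  refine hdep u _ (fun w => if h : r w u then hr.fix F w else default) _
    (fun w hw => by simp [hw]) ?_
  exact (hex u fun w => if h : r w u then hr.fix F w else default).choose_spec

theorem wf_up {V : Type*} (rank : V → ℕ) (ρ : ℕ) :
    WellFounded fun w u : V => rank u < rank w ∧ rank w ≤ ρ := by
  refine Subrelation.wf (r := InvImage (· < ·) fun u => ρ - rank u) ?_
    (InvImage.wf _ Nat.lt_wfRel.wf)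
  intro w u h
  show ρ - rank w < ρ - rank u
  omega

theorem exists_parClosed {V : Type*} (rank : V → ℕ) (par : V → Finset V)
    (hpar : ∀ d u, u ∈ par d → rank u < rank d) (A : Finset V) :
    ∃ F : Finset V, A ⊆ F ∧ (∀ d ∈ F, par d ⊆ F) ∧
      ∀ D : Set V, (∀ d ∈ D, ∀ u ∈ par d, u ∈ D) → (∀ a ∈ A, a ∈ D) → ∀ a ∈ F, a ∈ D := by
  classical
  have key : ∀ n : ℕ, ∀ A : Finset V, (∀ a ∈ A, rank a < n) →
      ∃ F : Finset V, A ⊆ F ∧ (∀ d ∈ F, par d ⊆ F) ∧
        ∀ D : Set V, (∀ d ∈ D, ∀ u ∈ par d, u ∈ D) → (∀ a ∈ A, a ∈ D) → ∀ a ∈ F, a ∈ D := by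
    intro n
    induction n with
    | zero =>
      intro A hA
      exact ⟨A, subset_rfl, fun d hd => absurd (hA d hd) (by omega), fun D _ h => h⟩
    | succ n ih =>
      intro A hA
      obtain ⟨F, h1, h2, h3⟩ := ih (A.biUnion par) (by
        intro a ha
        obtain ⟨d, hd, had⟩ := Finset.mem_biUnion.1 ha
        have := hpar d a had
        have := hA d hd
        omega)
      refine ⟨A ∪ F, Finset.subset_union_left, fun d hd => ?_, fun D hD hAD a ha => ?_⟩
      · rcases Finset.mem_union.1 hd with hd | hd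
        · intro u hu
          exact Finset.mem_union_right _ (h1 (Finset.mem_biUnion.2 ⟨d, hd, hu⟩))
        · exact (h2 d hd).trans Finset.subset_union_right
      · rcases Finset.mem_union.1 ha with ha | ha
        · exact hAD a ha
        · refine h3 D hD (fun b hb => ?_) a ha
          obtain ⟨d, hd, hbd⟩ := Finset.mem_biUnion.1 hb
          exact hD d (hAD d hd) b hbd
  exact key (A.sup rank + 1) A fun a ha => Nat.lt_succ_of_le (Finset.le_sup ha)

theorem countable_finsets {V : Type*} {s : Set V} (hs : s.Countable) :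
    {F : Finset V | ∀ a ∈ F, a ∈ s}.Countable := by
  have h1 := Set.countable_ofPred_finite_subset hs
  have : {F : Finset V | ∀ a ∈ F, a ∈ s} =
      (fun F : Finset V => (F : Set V)) ⁻¹' {t | t.Finite ∧ t ⊆ s} := by
    ext F
    simp [Set.subset_def]
  rw [this]
  exact h1.preimage Finset.coe_injective

theorem exists_countable_closed {V : Type*} (G : Finset V → Set V)
    (hG : ∀ F, (G F).Countable) (v0 : V) :
    ∃ D : Set V, D.Countable ∧ v0 ∈ D ∧ ∀ F : Finset V, (∀ a ∈ F, a ∈ D) → G F ⊆ D := by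
  let step : Set V → Set V := fun s => s ∪ ⋃ F ∈ {F : Finset V | ∀ a ∈ F, a ∈ s}, G F
  let D : ℕ → Set V := fun n => step^[n] {v0}
  have hsucc : ∀ n, D (n + 1) = step (D n) := fun n => Function.iterate_succ_apply' _ _ _
  have hc : ∀ n, (D n).Countable := by
    intro n
    induction n with
    | zero => exact Set.countable_singleton _
    | succ n ih =>
      rw [hsucc]
      exact ih.union ((countable_finsets ih).biUnion fun F _ => hG F)
  have hmono : Monotone D := monotone_nat_of_le_succ fun n => by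
    rw [hsucc]; exact Set.subset_union_left
  refine ⟨⋃ n, D n, Set.countable_iUnion hc, Set.mem_iUnion.2 ⟨0, rfl⟩, fun F hF => ?_⟩
  choose n hn using fun a : F => Set.mem_iUnion.1 (hF a.1 a.2)
  let N := Finset.univ.sup n
  have hN : ∀ a ∈ F, a ∈ D N := fun a ha =>
    hmono (Finset.le_sup (Finset.mem_univ (⟨a, ha⟩ : F))) (hn ⟨a, ha⟩)
  intro x hx
  refine Set.mem_iUnion.2 ⟨N + 1, ?_⟩
  rw [hsucc]
  exact Or.inr (Set.mem_biUnion (show F ∈ {F : Finset V | ∀ a ∈ F, a ∈ D N} from hN) hx)

theorem exists_finset_closure {R : Type*} [Ring R] (s : Set R) (A : Finset R)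
    (hA : ∀ r ∈ A, r ∈ Subring.closure s) :
    ∃ G : Finset R, (∀ g ∈ G, g ∈ s) ∧ ∀ r ∈ A, r ∈ Subring.closure (G : Set R) := by
  classical
  have key : ∀ r ∈ Subring.closure s,
      ∃ G : Finset R, (∀ g ∈ G, g ∈ s) ∧ r ∈ Subring.closure (G : Set R) := by
    intro r hr
    induction hr using Subring.closure_induction with
    | mem x hx => exact ⟨{x}, by simpa using hx, Subring.subset_closure (by simp)⟩
    | zero => exact ⟨∅, by simp, zero_mem _⟩
    | one => exact ⟨∅, by simp, one_mem _⟩
    | add x y _ _ hx hy =>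
      obtain ⟨G1, h1, h2⟩ := hx
      obtain ⟨G2, h3, h4⟩ := hy
      refine ⟨G1 ∪ G2, fun g hg => (Finset.mem_union.1 hg).elim (h1 g) (h3 g), add_mem
        (Subring.closure_mono (by simp) h2) (Subring.closure_mono (by simp) h4)⟩
    | neg x _ hx =>
      obtain ⟨G1, h1, h2⟩ := hx
      exact ⟨G1, h1, neg_mem h2⟩
    | mul x y _ _ hx hy =>
      obtain ⟨G1, h1, h2⟩ := hx
      obtain ⟨G2, h3, h4⟩ := hy
      refine ⟨G1 ∪ G2, fun g hg => (Finset.mem_union.1 hg).elim (h1 g) (h3 g), mul_mem
        (Subring.closure_mono (by simp) h2) (Subring.closure_mono (by simp) h4)⟩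
  choose G hG1 hG2 using fun r : A => key r.1 (hA r.1 r.2)
  refine ⟨Finset.univ.biUnion G, fun g hg => ?_, fun r hr => ?_⟩
  · obtain ⟨r, -, hr⟩ := Finset.mem_biUnion.1 hg
    exact hG1 r g hr
  · refine Subring.closure_mono ?_ (hG2 ⟨r, hr⟩)
    intro g hg
    exact Finset.mem_coe.2 (Finset.mem_biUnion.2 ⟨⟨r, hr⟩, Finset.mem_univ _, hg⟩)

theorem exists_finset_closure' {R ι : Type*} [Ring R] (gen : ι → R) (A : Finset R)
    (hA : ∀ r ∈ A, r ∈ Subring.closure (Set.range gen)) :
    ∃ I : Finset ι, ∀ r ∈ A, r ∈ Subring.closure (gen '' (I : Set ι)) := by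
  classical
  obtain ⟨G, hG1, hG2⟩ := exists_finset_closure _ A hA
  choose c hc using fun g : G => hG1 g.1 g.2
  refine ⟨Finset.univ.image c, fun r hr => Subring.closure_mono ?_ (hG2 r hr)⟩
  intro g hg
  exact ⟨c ⟨g, hg⟩, by simp, hc ⟨g, hg⟩⟩

theorem countable_closure {R : Type*} [Ring R] {s : Set R} (hs : s.Countable) :
    (Subring.closure s : Set R).Countable := by
  have : Countable s := hs.to_subtype
  let ev : FreeRing s →+* R := FreeRing.lift Subtype.val
  have hsub : (Subring.closure s : Set R) ⊆ Set.range ev := by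
    have : Subring.closure s ≤ ev.range := by
      rw [Subring.closure_le]
      intro x hx
      exact ⟨FreeRing.of ⟨x, hx⟩, by simp [ev]⟩
    exact this
  have : Countable (FreeRing s) := by
    have h1 : Countable (FreeMonoid s) := inferInstanceAs (Countable (List s))
    have h2 : Countable (FreeAbelianGroup (FreeMonoid s)) :=
      (FreeAbelianGroup.equivFinsupp (FreeMonoid s)).injective.countable
    exact h2
  exact (Set.countable_range ev).mono hsub

end Pool.Agent.Lib.MP_08e64a_al
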