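import Pool.Agent.Lib.MP_08e64a_al.Compact
import Pool.Agent.Lib.MP_08e64a_al.Rec

/-!
The side without a generic point, in an abstract form: over a ring `R` carrying the data
`RData`, every indecomposable algebraically compact left module is killed by one of the
idempotents `mu v 1`.
-/

namespace Pool.Agent.Lib.MP_08e64a_al

/-- The relations used for the side without a generic point. -/
structure RData (R V C Bn Ar : Type) [Ring R] [CommRing C] where
  rank : V → ℕ
  par : V → Finset V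
  src : Bn → V
  tgt : Bn → V
  bn : Ar → Bn
  rho : Bn → C →+* C
  mu : V → C →+ R
  t : Ar → R
  hpar : ∀ d u, u ∈ par d → rank u < rank d
  hsurj : ∀ β, Function.Surjective (rho β)
  hsep : ∀ β β', β ≠ β' → src β ∈ par (tgt β) → src β' ∈ par (tgt β') →
    ∃ c, rho β c = 1 ∧ rho β' c = 0
  mu_mul : ∀ u c c', mu u c * mu u c' = mu u (c * c')
  mu_mul_ne : ∀ u w c c', u ≠ w → mu u c * mu w c' = 0
  mu_t : ∀ a c, mu (src (bn a)) c * t a = t a * mu (tgt (bn a)) (rho (bn a) c)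
  mu_t_ne : ∀ a w c, w ≠ src (bn a) → mu w c * t a = 0
  t_mu_ne : ∀ a w c, w ≠ tgt (bn a) → t a * mu w c = 0
  t_mu_one : ∀ a, t a * mu (tgt (bn a)) 1 = t a
  hval : ∀ a, src (bn a) ∈ par (tgt (bn a))
  hgen : ∀ r, r ∈ Subring.closure (Set.range (Sum.elim (fun p : V × C => mu p.1 p.2) t))
  countA : ∀ d, {a | tgt (bn a) = d}.Countable
  countB : ∀ d, {β | src β ∈ par (tgt β) ∧ tgt β = d}.Countable

namespace RData

variable {R V C Bn Ar : Type} [Ring R] [CommRing C] (Δ : RData R V C Bn Ar)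

theorem crt_one (U : Finset Bn) (hU : ∀ β ∈ U, Δ.src β ∈ Δ.par (Δ.tgt β)) (val : Bn → C) :
    ∃ c, ∀ β ∈ U, Δ.rho β c = val β := by
  classical
  have h1 : ∀ β β', ∃ c, β ≠ β' → β ∈ U → β' ∈ U → Δ.rho β c = 1 ∧ Δ.rho β' c = 0 := by
    intro β β'
    by_cases h : β ≠ β' ∧ β ∈ U ∧ β' ∈ U
    · obtain ⟨c, hc⟩ := Δ.hsep β β' h.1 (hU β h.2.1) (hU β' h.2.2)
      exact ⟨c, fun _ _ _ => hc⟩
    · exact ⟨0, fun h1 h2 h3 => absurd ⟨h1, h2, h3⟩ h⟩
  choose sp hsp using h1
  choose lf hlf using Δ.hsurj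
  refine ⟨∑ β ∈ U, (∏ β' ∈ U.erase β, sp β β') * lf β (val β), fun γ hγ => ?_⟩
  rw [map_sum, Finset.sum_eq_single γ]
  · rw [map_mul, hlf, map_prod, Finset.prod_eq_one, one_mul]
    intro β' hβ'
    exact (hsp γ β' (Finset.ne_of_mem_erase hβ').symm hγ (Finset.mem_of_mem_erase hβ')).1
  · intro β hβ hne
    rw [map_mul, map_prod, Finset.prod_eq_zero (Finset.mem_erase.2 ⟨hne.symm, hγ⟩)
      (hsp β γ hne hβ hγ).2, zero_mul]
  · intro h; exact absurd hγ h

/-- Families compatible with the bundles in `T`. -/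
def Fam (T : Finset Bn) (f : V → C) : Prop :=
  ∀ β ∈ T, Δ.rho β (f (Δ.src β)) = f (Δ.tgt β)

theorem crt (T O : Finset Bn) (hT : ∀ β ∈ T, Δ.src β ∈ Δ.par (Δ.tgt β))
    (hO : ∀ β ∈ O, Δ.src β ∈ Δ.par (Δ.tgt β)) (hd : ∀ β ∈ O, β ∉ T) (w : Bn → C) :
    ∃ f : V → C, Δ.Fam T f ∧ ∀ β ∈ O, Δ.rho β (f (Δ.src β)) = w β := by
  classical
  have : Inhabited C := ⟨0⟩
  obtain ⟨g, hg⟩ := exists_rec _ (wf_up Δ.rank (T.sup fun β => Δ.rank (Δ.tgt β)))
    (fun u (a : C) (g : V → C) => (∀ β ∈ T, Δ.src β = u → Δ.rho β a = g (Δ.tgt β)) ∧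
      ∀ β ∈ O, Δ.src β = u → Δ.rho β a = w β) (by
      intro u g
      obtain ⟨c, hc⟩ := Δ.crt_one (T ∪ O)
        (fun β hβ => (Finset.mem_union.1 hβ).elim (hT β) (hO β))
        (fun β => if β ∈ T then g (Δ.tgt β) else w β)
      refine ⟨c, fun β hβ _ => ?_, fun β hβ _ => ?_⟩
      · rw [hc β (Finset.mem_union_left _ hβ), if_pos hβ]
      · rw [hc β (Finset.mem_union_right _ hβ), if_neg (hd β hβ)]) (by
      intro u a g g' hgg h
      refine ⟨fun β hβ hu => ?_, h.2⟩
      rw [h.1 β hβ hu]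
      refine hgg _ ⟨?_, Finset.le_sup (f := fun β => Δ.rank (Δ.tgt β)) hβ⟩
      rw [← hu]
      exact Δ.hpar _ _ (hT β hβ))
  exact ⟨g, fun β hβ => (hg _).1 β hβ rfl, fun β hβ => (hg _).2 β hβ rfl⟩

/-- The element of `R` attached to a family. -/
def hat (F : Finset V) (f : V → C) : R := ∑ u ∈ F, Δ.mu u (f u)

theorem hat_add (F : Finset V) (f g : V → C) : Δ.hat F (f + g) = Δ.hat F f + Δ.hat F g := by
  simp [hat, Finset.sum_add_distrib]

theorem hat_sum {ι : Type*} (F : Finset V) (s : Finset ι) (f : ι → V → C) :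
    Δ.hat F (∑ i ∈ s, f i) = ∑ i ∈ s, Δ.hat F (f i) := by
  simp only [hat, Finset.sum_apply, map_sum]
  exact Finset.sum_comm

theorem hat_mul_mu (F : Finset V) (f : V → C) (u : V) (c : C) [Decidable (u ∈ F)] :
    Δ.hat F f * Δ.mu u c = if u ∈ F then Δ.mu u (f u * c) else 0 := by
  rw [hat, Finset.sum_mul]
  split_ifs with h
  · rw [Finset.sum_eq_single u, Δ.mu_mul]
    · intro w _ hw; exact Δ.mu_mul_ne _ _ _ _ hw
    · intro h'; exact absurd h h'
  · refine Finset.sum_eq_zero fun w hw => Δ.mu_mul_ne _ _ _ _ ?_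
    rintro rfl; exact h hw

theorem mu_mul_hat (F : Finset V) (f : V → C) (u : V) (c : C) [Decidable (u ∈ F)] :
    Δ.mu u c * Δ.hat F f = if u ∈ F then Δ.mu u (f u * c) else 0 := by
  rw [hat, Finset.mul_sum]
  split_ifs with h
  · rw [Finset.sum_eq_single u, Δ.mu_mul, mul_comm]
    · intro w _ hw; exact Δ.mu_mul_ne _ _ _ _ hw.symm
    · intro h'; exact absurd h h'
  · refine Finset.sum_eq_zero fun w hw => Δ.mu_mul_ne _ _ _ _ ?_
    rintro rfl; exact h hw

theorem hat_mul (F : Finset V) (f g : V → C) :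
    Δ.hat F f * Δ.hat F g = Δ.hat F (f * g) := by
  classical
  conv_lhs => rw [hat, Finset.sum_mul]
  conv_rhs => rw [hat]
  refine Finset.sum_congr rfl fun u hu => ?_
  rw [Δ.mu_mul_hat, if_pos hu, Pi.mul_apply, mul_comm]

theorem hat_mul_t (F : Finset V) (f : V → C) (a : Ar) [Decidable (Δ.src (Δ.bn a) ∈ F)] :
    Δ.hat F f * Δ.t a = if Δ.src (Δ.bn a) ∈ F then
      Δ.t a * Δ.mu (Δ.tgt (Δ.bn a)) (Δ.rho (Δ.bn a) (f (Δ.src (Δ.bn a)))) else 0 := by
  rw [hat, Finset.sum_mul]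
  split_ifs with h
  · rw [Finset.sum_eq_single (Δ.src (Δ.bn a)), Δ.mu_t]
    · intro w _ hw; exact Δ.mu_t_ne _ _ _ hw
    · intro h'; exact absurd h h'
  · refine Finset.sum_eq_zero fun w hw => Δ.mu_t_ne _ _ _ ?_
    rintro rfl; exact h hw

theorem t_mul_hat (F : Finset V) (f : V → C) (a : Ar) [Decidable (Δ.tgt (Δ.bn a) ∈ F)] :
    Δ.t a * Δ.hat F f = if Δ.tgt (Δ.bn a) ∈ F then
      Δ.t a * Δ.mu (Δ.tgt (Δ.bn a)) (f (Δ.tgt (Δ.bn a))) else 0 := by
  rw [hat, Finset.mul_sum]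
  split_ifs with h
  · rw [Finset.sum_eq_single (Δ.tgt (Δ.bn a))]
    · intro w _ hw; exact Δ.t_mu_ne _ _ _ hw
    · intro h'; exact absurd h h'
  · refine Finset.sum_eq_zero fun w hw => Δ.t_mu_ne _ _ _ ?_
    rintro rfl; exact h hw

/-- The countable subring attached to a finite set of vertices. -/
def sub (F : Finset V) : Subring R :=
  Subring.closure ((⋃ u ∈ F, Set.range (Δ.mu u)) ∪ Δ.t '' {a | Δ.tgt (Δ.bn a) ∈ F})

theorem sub_countable [Countable C] (F : Finset V) : (Δ.sub F : Set R).Countable := by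
  refine countable_closure (Set.Countable.union ?_ (Set.Countable.image ?_ _))
  · exact F.countable_toSet.biUnion fun u _ => Set.countable_range _
  · have : {a | Δ.tgt (Δ.bn a) ∈ F} = ⋃ d ∈ F, {a | Δ.tgt (Δ.bn a) = d} := by
      ext a; simp
    rw [this]
    exact F.countable_toSet.biUnion fun d _ => Δ.countA d

theorem mu_mem_sub {F : Finset V} {u : V} (hu : u ∈ F) (c : C) : Δ.mu u c ∈ Δ.sub F :=
  Subring.subset_closure (Or.inl (Set.mem_biUnion (Finset.mem_coe.2 hu) ⟨c, rfl⟩))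

theorem hat_mem_sub (F : Finset V) (f : V → C) : Δ.hat F f ∈ Δ.sub F :=
  Subring.sum_mem _ fun _ hu => Δ.mu_mem_sub hu _

variable {N : Type} [AddCommGroup N] [Module R N]

/-- Solvability of a finite system with one parameter. -/
def Psi {m k : ℕ} (B : Fin k → Fin m → R) (s : Fin k → R) (n : N) : Prop :=
  ∃ y : Fin m → N, ∀ j, ∑ l, B j l • y l = s j • n

theorem psi_add {m k : ℕ} {B : Fin k → Fin m → R} {s : Fin k → R} {n n' : N}
    (h : Psi B s n) (h' : Psi B s n') : Psi B s (n + n') := by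
  obtain ⟨y, hy⟩ := h
  obtain ⟨y', hy'⟩ := h'
  exact ⟨y + y', fun j => by simp [Finset.sum_add_distrib, hy, hy']⟩

theorem psi_sum {m k : ℕ} {B : Fin k → Fin m → R} {s : Fin k → R} {ι : Type*} (S : Finset ι)
    (n : ι → N) (h : ∀ i ∈ S, Psi B s (n i)) : Psi B s (∑ i ∈ S, n i) := by
  classical
  induction S using Finset.induction_on with
  | empty => exact ⟨0, fun j => by simp⟩
  | insert i S hi ih =>
    rw [Finset.sum_insert hi]
    exact psi_add (h i (by simp)) (ih fun j hj => h j (by simp [hj]))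

/-- The exceptional bundles for given data. -/
def Exc (n0 : N) (F : Finset V) (T : Finset Bn) {m k : ℕ} (B : Fin k → Fin m → R)
    (s : Fin k → R) (x : R) : Set Bn :=
  {β | Δ.src β ∈ Δ.par (Δ.tgt β) ∧ β ∉ T ∧ ¬ Psi B s ((Δ.hat F 1 * x) • n0) ∧
    ∀ f, Δ.Fam T f → Δ.rho β (f (Δ.src β)) = 0 → Psi B s ((Δ.hat F f * x) • n0)}

theorem exc_subsingleton (n0 : N) (F : Finset V) (T : Finset Bn)
    (hT : ∀ β ∈ T, Δ.src β ∈ Δ.par (Δ.tgt β)) {m k : ℕ} (B : Fin k → Fin m → R)
    (s : Fin k → R) (x : R) : (Δ.Exc n0 F T B s x).Subsingleton := by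
  classical
  intro β hβ β' hβ'
  by_contra hne
  obtain ⟨f, hf, hw⟩ := Δ.crt T {β, β'} hT (by
      intro γ hγ
      rcases Finset.mem_insert.1 hγ with rfl | hγ
      · exact hβ.1
      · rw [Finset.mem_singleton.1 hγ]; exact hβ'.1) (by
      intro γ hγ
      rcases Finset.mem_insert.1 hγ with rfl | hγ
      · exact hβ.2.1
      · rw [Finset.mem_singleton.1 hγ]; exact hβ'.2.1)
    (fun γ => if γ = β then 0 else 1)
  have h1 := hβ.2.2.2 f hf (by rw [hw β (by simp)]; simp)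
  have h2 := hβ'.2.2.2 (1 - f) (fun γ hγ => by simp [hf γ hγ]) (by
    have := hw β' (by simp)
    rw [if_neg (Ne.symm hne)] at this
    simp [this])
  have h3 := psi_add h1 h2
  rw [← add_smul, ← add_mul, ← Δ.hat_add, add_sub_cancel] at h3
  exact hβ.2.2.1 h3

/-- The vertices that have to be added to `F`. -/
def Gam (n0 : N) (F : Finset V) : Set V :=
  ⋃ T ∈ {T : Finset Bn | ∀ β ∈ T, β ∈ {β | Δ.src β ∈ Δ.par (Δ.tgt β) ∧ Δ.tgt β ∈ F}},
    ⋃ m : ℕ, ⋃ k : ℕ, ⋃ B ∈ {B : Fin k → Fin m → R | ∀ j l, B j l ∈ Δ.sub F},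
      ⋃ s ∈ {s : Fin k → R | ∀ j, s j ∈ Δ.sub F}, ⋃ x ∈ (Δ.sub F : Set R),
        Δ.tgt '' Δ.Exc n0 F T B s x

theorem gam_countable [Countable C] (n0 : N) (F : Finset V) : (Δ.Gam n0 F).Countable := by
  have hB : {β | Δ.src β ∈ Δ.par (Δ.tgt β) ∧ Δ.tgt β ∈ F}.Countable := by
    have : {β | Δ.src β ∈ Δ.par (Δ.tgt β) ∧ Δ.tgt β ∈ F} =
        ⋃ d ∈ F, {β | Δ.src β ∈ Δ.par (Δ.tgt β) ∧ Δ.tgt β = d} := by
      ext β; simp
    rw [this]
    exact F.countable_toSet.biUnion fun d _ => Δ.countB d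
  have hs : ∀ k : ℕ, {s : Fin k → R | ∀ j, s j ∈ Δ.sub F}.Countable := fun k =>
    Set.countable_pi (fun _ => Δ.sub_countable F)
  refine (countable_finsets hB).biUnion fun T hT => Set.countable_iUnion fun m =>
    Set.countable_iUnion fun k => Set.Countable.biUnion ?_ fun B _ =>
      (hs k).biUnion fun s _ => (Δ.sub_countable F).biUnion fun x _ => ?_
  · exact Set.countable_pi (fun _ => hs m)
  · exact ((Δ.exc_subsingleton n0 F T (fun β hβ => (hT β hβ).1) B s x).image _).countable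

theorem lemmaR [Countable C] [Uncountable V] (n0 : N) (v0 : V) (h0 : Δ.mu v0 1 • n0 = n0) :
    ∃ v, ∀ (m k : ℕ) (B : Fin k → Fin m → R) (s : Fin k → R), Psi B s n0 →
      ∃ y : Fin m → N, (∀ j, ∑ l, B j l • y l = s j • n0) ∧ ∀ l, Δ.mu v 1 • y l = 0 := by
  classical
  obtain ⟨D, hDc, hv0, hD⟩ := exists_countable_closed
    (fun F => Δ.Gam n0 F ∪ (F.biUnion Δ.par : Finset V))
    (fun F => (Δ.gam_countable n0 F).union (Finset.countable_toSet _)) v0
  have hDpar : ∀ d ∈ D, ∀ u ∈ Δ.par d, u ∈ D := fun d hd u hu =>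
    hD {d} (by simpa using hd) (Or.inr (by simpa using hu))
  obtain ⟨v, hv⟩ : ∃ v, v ∉ D := by
    by_contra h
    push Not at h
    exact Set.not_countable_univ (hDc.mono fun x _ => h x)
  refine ⟨v, fun m k B s ⟨y, hy⟩ => ?_⟩
  obtain ⟨I, hI⟩ := exists_finset_closure' (Sum.elim (fun p : V × C => Δ.mu p.1 p.2) Δ.t)
    (Finset.univ.image (fun p : Fin k × Fin m => B p.1 p.2) ∪ Finset.univ.image s)
    (fun r _ => Δ.hgen r)
  obtain ⟨F, hAF, hF, hFD⟩ := exists_parClosed Δ.rank Δ.par Δ.hpar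
    (insert v0 ((I.toRight.image fun a => Δ.tgt (Δ.bn a)).filter (· ∈ D)))
  replace hFD := hFD D hDpar (by
    intro a ha
    rcases Finset.mem_insert.1 ha with rfl | ha
    · exact hv0
    · exact (Finset.mem_filter.1 ha).2)
  have hv0F : v0 ∈ F := hAF (Finset.mem_insert_self _ _)
  have hvF : v ∉ F := fun h => hv (hFD v h)
  let T : Finset Bn := (I.toRight.filter fun a => Δ.tgt (Δ.bn a) ∈ F).image Δ.bn
  let O : Finset Bn := (I.toRight.filter fun a => Δ.tgt (Δ.bn a) ∉ F).image Δ.bn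
  have hT : ∀ β ∈ T, Δ.src β ∈ Δ.par (Δ.tgt β) ∧ Δ.tgt β ∈ F := by
    intro β hβ
    obtain ⟨a, ha, rfl⟩ := Finset.mem_image.1 hβ
    exact ⟨Δ.hval a, (Finset.mem_filter.1 ha).2⟩
  have hO : ∀ β ∈ O, Δ.src β ∈ Δ.par (Δ.tgt β) ∧ Δ.tgt β ∉ D := by
    intro β hβ
    obtain ⟨a, ha, rfl⟩ := Finset.mem_image.1 hβ
    refine ⟨Δ.hval a, fun hd => (Finset.mem_filter.1 ha).2 (hAF (Finset.mem_insert_of_mem
      (Finset.mem_filter.2 ⟨Finset.mem_image_of_mem _ (Finset.mem_filter.1 ha).1, hd⟩)))⟩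
  have hOT : ∀ β ∈ O, β ∉ T := fun β hβ hβT => (hO β hβ).2 (hFD _ (hT β hβT).2)
  set E := Δ.hat F 1 with hE
  have hEE : E * E = E := by rw [hE, Δ.hat_mul, mul_one]
  have hfE : ∀ f, Δ.hat F f * E = Δ.hat F f := fun f => by rw [hE, Δ.hat_mul, mul_one]
  have hEf : ∀ f, E * Δ.hat F f = Δ.hat F f := fun f => by rw [hE, Δ.hat_mul, one_mul]
  have hprop : ∀ r ∈ Subring.closure
      (Sum.elim (fun p : V × C => Δ.mu p.1 p.2) Δ.t '' (I : Set (V × C ⊕ Ar))),
      E * r * E ∈ Δ.sub F ∧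
      (∀ f, Δ.Fam T f → Δ.hat F f * (E * r * E) = E * r * E * Δ.hat F f) ∧
      (∀ f, Δ.Fam T f → (∀ β ∈ O, Δ.rho β (f (Δ.src β)) = 0) →
        Δ.hat F f * r * E = Δ.hat F f * r) ∧ E * r * E = r * E := by
    intro r hr
    induction hr using Subring.closure_induction with
    | mem x hx =>
      obtain ⟨(⟨u, c⟩ | a), ha, rfl⟩ := hx
      · simp only [Sum.elim_inl]
        by_cases hu : u ∈ F
        · have e1 : E * Δ.mu u c = Δ.mu u c := by
            rw [hE, Δ.hat_mul_mu, if_pos hu]; simp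
          have e2 : Δ.mu u c * E = Δ.mu u c := by
            rw [hE, Δ.mu_mul_hat, if_pos hu]; simp
          refine ⟨by rw [e1, e2]; exact Δ.mu_mem_sub hu c, fun f _ => ?_,
            fun f _ _ => by rw [mul_assoc, e2], by rw [e1]⟩
          rw [e1, e2, Δ.hat_mul_mu, Δ.mu_mul_hat]
        · have e1 : ∀ f, Δ.hat F f * Δ.mu u c = 0 := fun f => by
            rw [Δ.hat_mul_mu, if_neg hu]
          have e2 : Δ.mu u c * E = 0 := by rw [hE, Δ.mu_mul_hat, if_neg hu]
          have e3 : E * Δ.mu u c = 0 := e1 1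
          refine ⟨by rw [e3, zero_mul]; exact zero_mem _, fun f _ => by simp [e3],
            fun f _ _ => by simp [e1], by simp [e2, e3]⟩
      · simp only [Sum.elim_inr]
        have haI : a ∈ I.toRight := by simpa using ha
        by_cases hd : Δ.tgt (Δ.bn a) ∈ F
        · have hs : Δ.src (Δ.bn a) ∈ F := hF _ hd (Δ.hval a)
          have e1 : E * Δ.t a = Δ.t a := by
            rw [hE, Δ.hat_mul_t, if_pos hs]; simp [Δ.t_mu_one]
          have e2 : Δ.t a * E = Δ.t a := by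
            rw [hE, Δ.t_mul_hat, if_pos hd]; simp [Δ.t_mu_one]
          refine ⟨by rw [e1, e2]; exact Subring.subset_closure (Or.inr ⟨a, hd, rfl⟩),
            fun f hf => ?_, fun f _ _ => by rw [mul_assoc, e2], by rw [e1]⟩
          rw [e1, e2, Δ.hat_mul_t, Δ.t_mul_hat, if_pos hs, if_pos hd,
            hf _ (Finset.mem_image_of_mem _ (Finset.mem_filter.2 ⟨haI, hd⟩))]
        · have e2 : Δ.t a * E = 0 := by rw [hE, Δ.t_mul_hat, if_neg hd]
          have e3 : E * Δ.t a * E = 0 := by rw [mul_assoc, e2, mul_zero]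
          refine ⟨by rw [e3]; exact zero_mem _, fun f _ => by simp [e3],
            fun f _ hf => ?_, by rw [e2, e3]⟩
          have e4 : Δ.hat F f * Δ.t a = 0 := by
            rw [Δ.hat_mul_t, hf _ (Finset.mem_image_of_mem _ (Finset.mem_filter.2 ⟨haI, hd⟩))]
            simp
          rw [e4, zero_mul]
    | zero => simp
    | one =>
      simp only [mul_one, hEE, one_mul, and_true]
      exact ⟨Δ.hat_mem_sub F 1, fun f _ => by rw [hfE, hEf], fun f _ _ => hfE f⟩
    | add x y _ _ hx hy =>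
      refine ⟨by rw [mul_add, add_mul]; exact add_mem hx.1 hy.1, fun f hf => ?_,
        fun f hf hf' => ?_, ?_⟩
      · rw [mul_add, add_mul, mul_add, add_mul, hx.2.1 f hf, hy.2.1 f hf]
      · rw [mul_add, add_mul, hx.2.2.1 f hf hf', hy.2.2.1 f hf hf']
      · rw [mul_add, add_mul, add_mul, hx.2.2.2, hy.2.2.2]
    | neg x _ hx =>
      refine ⟨by rw [mul_neg, neg_mul]; exact neg_mem hx.1, fun f hf => ?_,
        fun f hf hf' => ?_, ?_⟩
      · rw [mul_neg, neg_mul, mul_neg, neg_mul, hx.2.1 f hf]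
      · rw [mul_neg, neg_mul, hx.2.2.1 f hf hf']
      · rw [mul_neg, neg_mul, neg_mul, hx.2.2.2]
    | mul x y _ _ hx hy =>
      have e1 : E * (x * y) * E = E * x * E * (E * y * E) := by
        calc E * (x * y) * E = E * x * (y * E) := by simp only [mul_assoc]
          _ = E * x * (E * E * y * E) := by rw [hEE, hy.2.2.2]
          _ = E * x * E * (E * y * E) := by simp only [mul_assoc]
      refine ⟨by rw [e1]; exact mul_mem hx.1 hy.1, fun f hf => ?_, fun f hf hf' => ?_, ?_⟩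
      · rw [e1, ← mul_assoc, hx.2.1 f hf, mul_assoc, hy.2.1 f hf, ← mul_assoc]
      · have e2 : Δ.hat F f * x = E * x * E * Δ.hat F f := by
          rw [← hx.2.1 f hf, ← mul_assoc, ← mul_assoc, hfE, hx.2.2.1 f hf hf']
        rw [← mul_assoc, e2, mul_assoc (E * x * E), mul_assoc (E * x * E), hy.2.2.1 f hf hf']
      · calc E * (x * y) * E = E * x * (y * E) := by simp only [mul_assoc]
          _ = E * x * (E * y * E) := by rw [hy.2.2.2]
          _ = E * x * E * (y * E) := by simp only [mul_assoc]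
          _ = x * E * (y * E) := by rw [hx.2.2.2]
          _ = x * (E * y * E) := by simp only [mul_assoc]
          _ = x * y * E := by rw [hy.2.2.2, mul_assoc]
  have hB := fun j l => hprop (B j l) (hI _ (Finset.mem_union_left _
    (Finset.mem_image.2 ⟨(j, l), Finset.mem_univ _, rfl⟩)))
  have hs := fun j => hprop (s j) (hI _ (Finset.mem_union_right _
    (Finset.mem_image_of_mem _ (Finset.mem_univ j))))
  have hEn : E • n0 = n0 := by
    rw [← h0, ← mul_smul, hE, Δ.hat_mul_mu, if_pos hv0F]; simp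
  have claim1 : ∀ f, Δ.Fam T f → (∀ β ∈ O, Δ.rho β (f (Δ.src β)) = 0) →
      Psi (fun j l => E * B j l * E) (fun j => E * s j * E) (Δ.hat F f • n0) := by
    intro f hf hf'
    refine ⟨fun l => Δ.hat F f • y l, fun j => ?_⟩
    have e1 : ∀ l, (E * B j l * E) • Δ.hat F f • y l = Δ.hat F f • B j l • y l := by
      intro l
      rw [← mul_smul, ← (hB j l).2.1 f hf, ← mul_assoc, ← mul_assoc, hfE,
        (hB j l).2.2.1 f hf hf', mul_smul]
    simp only [e1]
    rw [← Finset.smul_sum, hy j, ← mul_smul (E * s j * E), ← (hs j).2.1 f hf, ← mul_assoc,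
      ← mul_assoc, hfE, mul_smul, hEn, mul_smul]
  choose fb hfb1 hfb2 using fun β : Bn => Δ.crt T O (fun γ hγ => (hT γ hγ).1)
    (fun γ hγ => (hO γ hγ).1) hOT (fun γ => if γ = β then 1 else 0)
  have claim2 : ∀ β ∈ O,
      Psi (fun j l => E * B j l * E) (fun j => E * s j * E) (Δ.hat F (fb β) • n0) := by
    intro β hβ
    by_contra hn
    refine (hO β hβ).2 (hD F hFD (Or.inl ?_))
    simp only [Gam, Set.mem_iUnion]
    refine ⟨T, hT, m, k, fun j l => E * B j l * E, fun j l => (hB j l).1,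
      fun j => E * s j * E, fun j => (hs j).1, Δ.hat F (fb β), Δ.hat_mem_sub F _, β,
      ⟨(hO β hβ).1, hOT β hβ, by rw [← hE, hEf]; exact hn, fun f hf hf0 => ?_⟩, rfl⟩
    rw [Δ.hat_mul]
    refine claim1 _ (fun γ hγ => by simp [hf γ hγ, hfb1 β γ hγ]) fun γ hγ => ?_
    rw [Pi.mul_apply, map_mul, hfb2 β γ hγ]
    split_ifs with h
    · rw [h, hf0, zero_mul]
    · rw [mul_zero]
  have claim3 : Psi (fun j l => E * B j l * E) (fun j => E * s j * E) n0 := by
    have h1 := claim1 (1 - ∑ β ∈ O, fb β)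
      (fun γ hγ => by
        simp only [Pi.sub_apply, Pi.one_apply, Finset.sum_apply, map_sub, map_one, map_sum]
        rw [Finset.sum_congr rfl fun β _ => hfb1 β γ hγ])
      (fun γ hγ => by
        simp only [Pi.sub_apply, Pi.one_apply, Finset.sum_apply, map_sub, map_one, map_sum]
        rw [Finset.sum_congr rfl fun β _ => hfb2 β γ hγ]
        simp [hγ])
    have h2 := psi_add h1 (psi_sum O _ claim2)
    rw [← Finset.sum_smul, ← add_smul, ← Δ.hat_sum, ← Δ.hat_add, sub_add_cancel, ← hE,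
      hEn] at h2
    exact h2
  obtain ⟨y', hy'⟩ := claim3
  refine ⟨fun l => E • y' l, fun j => ?_, fun l => ?_⟩
  · have := hy' j
    simp only [(hB j _).2.2.2, (hs j).2.2.2, mul_smul, hEn] at this
    exact this
  · rw [← mul_smul, hE, Δ.mu_mul_hat, if_neg hvF, zero_smul]

include Δ in
theorem exists_vanishing [Countable C] [Uncountable V] (hN : AlgCompact R N) (hI : Indec R N) :
    ∃ v, ∀ n : N, Δ.mu v 1 • n = 0 := by
  classical
  obtain ⟨v0⟩ : Nonempty V := inferInstance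
  by_cases h0 : ∀ n : N, Δ.mu v0 1 • n = 0
  · exact ⟨v0, h0⟩
  push Not at h0
  obtain ⟨n1, hn1⟩ := h0
  have hidem : ∀ v, ∀ n : N, Δ.mu v 1 • Δ.mu v 1 • n = Δ.mu v 1 • n := fun v n => by
    rw [← mul_smul, Δ.mu_mul, mul_one]
  obtain ⟨v, hv⟩ := Δ.lemmaR (Δ.mu v0 1 • n1) v0 (hidem v0 n1)
  set n0 := Δ.mu v0 1 • n1
  obtain ⟨h, hh⟩ := ext_of_algCompact hN N (Option N)
    (fun o => o.elim n0 fun n => Δ.mu v 1 • n) (fun o => o.elim n0 fun _ => 0) (by
      intro J0 K0 hK
      let K1 : Finset (N →₀ R) := K0 ∪ J0.eraseNone.image fun n =>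
        Finsupp.single (Δ.mu v 1 • n) 1 - Finsupp.single (Δ.mu v 1 • n) (Δ.mu v 1)
      have hK1 : ∀ k ∈ K1, lin (fun x : N => x) k = 0 := by
        intro k hk
        rcases Finset.mem_union.1 hk with hk | hk
        · exact hK k hk
        · obtain ⟨n, -, rfl⟩ := Finset.mem_image.1 hk
          simp [lin, hidem]
      let X : Finset N := insert n0 (K1.biUnion Finsupp.support)
      have hn0X : n0 ∈ X := Finset.mem_insert_self _ _
      have hsupp : ∀ k ∈ K1, k.support ⊆ X := fun k hk x hx =>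
        Finset.mem_insert_of_mem (Finset.mem_biUnion.2 ⟨k, hk, hx⟩)
      let eX := Fintype.equivFin X
      let eJ := Fintype.equivFin (Option K1)
      let B0 : Option K1 → X → R := fun o x =>
        o.elim (if x = ⟨n0, hn0X⟩ then 1 else 0) fun k => k.1 x.1
      let s0 : Option K1 → R := fun o => o.elim 1 fun _ => 0
      obtain ⟨y, hy1, hy2⟩ := hv _ _ (fun j l => B0 (eJ.symm j) (eX.symm l))
        (fun j => s0 (eJ.symm j)) ⟨fun l => (eX.symm l).1, fun j => by
          rw [eX.symm.sum_comp (fun x => B0 (eJ.symm j) x • x.1)]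
          beta_reduce
          generalize eJ.symm j = o
          rcases o with _ | k
          · simp [B0, s0, ite_smul]
          · have h1 := hK1 k.1 k.2
            rw [lin_eq_sum _ _ X (hsupp k.1 k.2), ← Finset.sum_coe_sort] at h1
            simpa [B0, s0] using h1⟩
      have hy3 : ∀ o, ∑ x : X, B0 o x • y (eX x) = s0 o • n0 := by
        intro o
        have := hy1 (eJ o)
        rw [← eX.sum_comp] at this
        simpa using this
      let z : N → N := fun x => if hx : x ∈ X then y (eX ⟨x, hx⟩) else 0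
      have hz : ∀ k ∈ K1, lin z k = 0 := by
        intro k hk
        rw [lin_eq_sum _ _ X (hsupp k hk), ← Finset.sum_coe_sort]
        simpa [B0, s0, z] using hy3 (some ⟨k, hk⟩)
      refine ⟨z, fun k hk => hz k (Finset.mem_union_left _ hk), ?_⟩
      rintro (_ | n) hj
      · have := hy3 none
        simp only [B0, s0, Option.elim_none, ite_smul, one_smul, zero_smul, Finset.sum_ite_eq',
          Finset.mem_univ, if_true] at this
        simp only [Option.elim_none, z, dif_pos hn0X, this]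
      · have h1 := hz _ (Finset.mem_union_right _
          (Finset.mem_image_of_mem _ (Finset.mem_eraseNone.2 hj)))
        simp only [lin, map_sub, Finsupp.linearCombination_single, one_smul, sub_eq_zero] at h1
        simp only [Option.elim_some]
        rw [h1]
        simp only [z]
        split_ifs
        · exact hy2 _
        · simp)
  exact ⟨v, fun n => injective_of_fix hN hI hn1 h (hh none) _ (hh (some n))⟩

end RData

end Pool.Agent.Lib.MP_08e64a_al
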