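import Pool.Agent.Lib.MP_08e64a_al.Right

/-!
The ring `R` and its compact left module `P`.
-/

namespace Pool.Agent.Lib.MP_08e64a_al

open Cardinal

abbrev K := ZMod 2

abbrev Om := ℕ → ℕ → Bool

/-- Functions depending on finitely many coordinates. -/
def CC : Subring (Om → K) where
  carrier := {c | ∃ N, ∀ ω ω' : Om, (∀ i j, i < N → j < N → ω i j = ω' i j) → c ω = c ω'}
  zero_mem' := ⟨0, fun _ _ _ => rfl⟩
  one_mem' := ⟨0, fun _ _ _ => rfl⟩
  add_mem' := by
    rintro a b ⟨N, hN⟩ ⟨M, hM⟩
    refine ⟨max N M, fun ω ω' h => ?_⟩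
    rw [Pi.add_apply, Pi.add_apply, hN ω ω' fun i j hi hj => h i j (by omega) (by omega),
      hM ω ω' fun i j hi hj => h i j (by omega) (by omega)]
  mul_mem' := by
    rintro a b ⟨N, hN⟩ ⟨M, hM⟩
    refine ⟨max N M, fun ω ω' h => ?_⟩
    rw [Pi.mul_apply, Pi.mul_apply, hN ω ω' fun i j hi hj => h i j (by omega) (by omega),
      hM ω ω' fun i j hi hj => h i j (by omega) (by omega)]
  neg_mem' := by
    rintro a ⟨N, hN⟩
    exact ⟨N, fun ω ω' h => by rw [Pi.neg_apply, Pi.neg_apply, hN ω ω' h]⟩

abbrev C : Type := CC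

/-- Finite windows. -/
abbrev Win (N : ℕ) := Fin N → Fin N → Bool

/-- The window of `ω` seen from a vertex of rank `r`. -/
def res (N r : ℕ) (ω : Om) : Win N := fun i j => if i.1 + r < N then ω i j else false

/-- Extension of a window by `false`. -/
def ext {N : ℕ} (x : Win N) : Om := fun i j =>
  if h : i < N ∧ j < N then x ⟨i, h.1⟩ ⟨j, h.2⟩ else false

theorem res_eq_iff {N r : ℕ} {ω ω' : Om} :
    res N r ω = res N r ω' ↔ ∀ i j, i + r < N → j < N → ω i j = ω' i j := by
  constructor
  · intro h i j hi hj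
    have := congrFun (congrFun h ⟨i, by omega⟩) ⟨j, hj⟩
    simpa [res, hi] using this
  · intro h
    funext i j
    simp only [res]
    split_ifs with hi
    · exact h _ _ hi j.2
    · rfl

theorem res_ext_res (N r : ℕ) (ω : Om) : res N r (ext (res N r ω)) = res N r ω := by
  rw [res_eq_iff]
  intro i j hi hj
  have : i < N := by omega
  simp [ext, res, this, hj, hi]

/-- A function of the window. -/
def ofWin {N : ℕ} (r : ℕ) (g : Win N → K) : C :=
  ⟨fun ω => g (res N r ω), N, fun ω ω' h =>
    congrArg g (res_eq_iff.2 fun i j hi hj => h i j (by omega) hj)⟩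

@[simp] theorem ofWin_apply {N : ℕ} (r : ℕ) (g : Win N → K) (ω : Om) :
    (ofWin r g).1 ω = g (res N r ω) := rfl

instance : Countable C := by
  have : Function.Surjective (fun p : Σ N, (Win N → K) => ofWin 0 p.2) := by
    rintro ⟨c, N, hN⟩
    refine ⟨⟨N, fun x => c (ext x)⟩, Subtype.ext (funext fun ω => ?_)⟩
    refine hN _ _ fun i j hi hj => ?_
    simp [ext, res, hi, hj]
  exact this.countable

/-- `c` depends only on the window of size `N` seen from rank `r`. -/
def Dep (N r : ℕ) (c : C) : Prop := ∀ ω ω', res N r ω = res N r ω' → c.1 ω = c.1 ω'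

theorem exists_dep (c : C) (r : ℕ) : ∃ N0, ∀ N, N0 ≤ N → Dep N r c := by
  obtain ⟨N0, h⟩ := c.2
  refine ⟨N0 + r, fun N hN ω ω' hω => h _ _ fun i j hi hj => ?_⟩
  exact res_eq_iff.1 hω i j (by omega) (by omega)

/-- An index type of the first uncountable cardinality. -/
def Y : Type := (aleph 1 : Cardinal.{0}).out

/-- Vertices; the first coordinate is the rank. -/
abbrev V := ℕ × Y

/-- Bundles: source, target, prefix. -/
abbrev Bn := V × V × Finset (ℕ × ℕ)

/-- Raw arrows: a bundle and a basis index. -/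
abbrev RA := Bn × V × ℕ

abbrev Task := Finset V × ((RA × ℕ) →₀ (ℕ →₀ C))

theorem mk_Y : #Y = aleph 1 := mk_out _

instance : Uncountable Y := by
  rw [← Cardinal.aleph0_lt_mk_iff, mk_Y]
  exact aleph0_lt_aleph_one

theorem mul_aleph_one {a b : Cardinal.{0}} (ha : a ≤ aleph 1) (hb : b ≤ aleph 1) :
    a * b ≤ aleph 1 :=
  (mul_le_mul' ha hb).trans_eq (mul_eq_self aleph0_lt_aleph_one.le)

theorem mk_prod_le {A B : Type} (ha : #A ≤ aleph 1) (hb : #B ≤ aleph 1) :
    #(A × B) ≤ aleph 1 := by
  rw [mk_prod, lift_id, lift_id]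
  exact mul_aleph_one ha hb

theorem mk_cnt (A : Type) [Countable A] : #A ≤ aleph 1 :=
  mk_le_aleph0.trans aleph0_lt_aleph_one.le

theorem mk_V : #V ≤ aleph 1 := mk_prod_le (mk_cnt _) mk_Y.le

theorem mk_Bn : #Bn ≤ aleph 1 := mk_prod_le mk_V (mk_prod_le mk_V (mk_cnt _))

theorem mk_RA : #RA ≤ aleph 1 := mk_prod_le mk_Bn (mk_prod_le mk_V (mk_cnt _))

theorem exists_task : ∃ f : Y → Task, Function.Surjective f := by
  have h1 : #(Finset V) ≤ aleph 1 := by rw [mk_finset_of_infinite]; exact mk_V
  have h2 : #((RA × ℕ) →₀ (ℕ →₀ C)) ≤ aleph 1 := by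
    rw [mk_finsupp_of_infinite]
    exact max_le (mk_prod_le mk_RA (mk_cnt _)) (mk_cnt _)
  obtain ⟨e⟩ := (Cardinal.le_def _ _).1 ((mk_prod_le h1 h2).trans_eq mk_Y.symm)
  exact ⟨Function.invFun e, Function.invFun_surjective e.injective⟩

theorem exists_code : ∃ f : Bn → ℕ → Bool, Function.Injective f := by
  have h : #Bn ≤ #(ℕ → Bool) := mk_Bn.trans (by simpa using aleph_one_le_continuum)
  obtain ⟨e⟩ := (Cardinal.le_def _ _).1 h
  exact ⟨e, e.injective⟩

noncomputable def task : Y → Task := exists_task.choose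

theorem task_surj : Function.Surjective task := exists_task.choose_spec

noncomputable def code : Bn → ℕ → Bool := exists_code.choose

theorem code_inj : Function.Injective code := exists_code.choose_spec

noncomputable def par (d : V) : Finset V := (task d.2).1.filter fun u => u.1 < d.1

theorem rank_lt {d u : V} (h : u ∈ par d) : u.1 < d.1 := (Finset.mem_filter.1 h).2

theorem exists_vertex (F : Finset V) (θ : (RA × ℕ) →₀ (ℕ →₀ C)) (n : ℕ) :
    ∃ d : V, n ≤ d.1 ∧ F ⊆ par d ∧ (task d.2).2 = θ := by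
  obtain ⟨y, hy⟩ := task_surj (F, θ)
  refine ⟨(max n (F.sup Prod.fst + 1), y), le_max_left _ _, fun u hu => ?_, by simp [hy]⟩
  refine Finset.mem_filter.2 ⟨by simpa [hy] using hu, ?_⟩
  have : u.1 ≤ F.sup Prod.fst := Finset.le_sup hu
  simp only
  omega

noncomputable def lab (β : Bn) : ℕ → Bool := fun j => if j % 2 = 0 then true else code β (j / 2)

/-- The embedding of Cantor spaces attached to a bundle. -/
noncomputable def iota (β : Bn) (ω : Om) : Om := fun i j =>
  if i + 1 < β.2.1.1 - β.1.1 then decide ((i, j) ∈ β.2.2)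
  else if i + 1 = β.2.1.1 - β.1.1 then lab β j else ω (i - (β.2.1.1 - β.1.1)) j

theorem iota_congr (β : Bn) {ω ω' : Om} {i j : ℕ}
    (h : β.2.1.1 - β.1.1 ≤ i → ω (i - (β.2.1.1 - β.1.1)) j = ω' (i - (β.2.1.1 - β.1.1)) j) :
    iota β ω i j = iota β ω' i j := by
  simp only [iota]
  split_ifs with h1 h2
  · rfl
  · rfl
  · exact h (by omega)

theorem iota_add (β : Bn) (ω : Om) (i j : ℕ) :
    iota β ω (i + (β.2.1.1 - β.1.1)) j = ω i j := by
  simp only [iota]
  rw [if_neg (by omega), if_neg (by omega), Nat.add_sub_cancel]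

noncomputable def rho (β : Bn) : C →+* C where
  toFun c := ⟨fun ω => c.1 (iota β ω), by
    obtain ⟨N, hN⟩ := c.2
    exact ⟨N, fun ω ω' h => hN _ _ fun i j hi hj =>
      iota_congr β fun _ => h _ _ (by omega) hj⟩⟩
  map_one' := rfl
  map_mul' _ _ := rfl
  map_zero' := rfl
  map_add' _ _ := rfl

@[simp] theorem rho_apply (β : Bn) (c : C) (ω : Om) : (rho β c).1 ω = c.1 (iota β ω) := rfl

theorem rho_surj (β : Bn) : Function.Surjective (rho β) := by
  rintro ⟨c, N, hN⟩
  refine ⟨⟨fun ω => c fun i j => ω (i + (β.2.1.1 - β.1.1)) j, N + (β.2.1.1 - β.1.1),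
    fun ω ω' h => hN _ _ fun i j hi hj => h _ _ (by omega) (by omega)⟩,
    Subtype.ext (funext fun ω => ?_)⟩
  simp [iota_add]

theorem exists_sep_aux (β β' : Bn) (h1 : β.1.1 < β.2.1.1)
    (hlt : β.2.1.1 - β.1.1 < β'.2.1.1 - β'.1.1) :
    ∃ j, (∀ ω, iota β ω (β.2.1.1 - β.1.1 - 1) j = true) ∧
      ∀ ω, iota β' ω (β.2.1.1 - β.1.1 - 1) j = false := by
  let m := β'.2.2.sup Prod.snd + 1
  refine ⟨2 * m, fun ω => ?_, fun ω => ?_⟩
  · simp only [iota]
    rw [if_neg (by omega), if_pos (by omega)]
    simp [lab]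
  · simp only [iota]
    rw [if_pos (by omega)]
    simp only [decide_eq_false_iff_not]
    intro hm
    have : 2 * m ≤ β'.2.2.sup Prod.snd := Finset.le_sup (f := Prod.snd) hm
    omega

theorem exists_sep (β β' : Bn) (hne : β ≠ β') (h1 : β.1.1 < β.2.1.1) (h2 : β'.1.1 < β'.2.1.1) :
    ∃ i j b, i + β.1.1 < β.2.1.1 ∧ (∀ ω, iota β ω i j = b) ∧ ∀ ω, iota β' ω i j = !b := by
  rcases lt_trichotomy (β.2.1.1 - β.1.1) (β'.2.1.1 - β'.1.1) with h | h | h
  · obtain ⟨j, h3, h4⟩ := exists_sep_aux β β' h1 h
    exact ⟨_, j, true, by omega, h3, h4⟩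
  · obtain ⟨k, hk⟩ := Function.ne_iff.1 (code_inj.ne hne)
    refine ⟨β.2.1.1 - β.1.1 - 1, 2 * k + 1, code β k, by omega, fun ω => ?_, fun ω => ?_⟩
    · simp only [iota]
      rw [if_neg (by omega), if_pos (by omega)]
      have e1 : (2 * k + 1) / 2 = k := by omega
      simp [lab, e1]
    · simp only [iota]
      rw [if_neg (by omega), if_pos (by omega)]
      have e1 : (2 * k + 1) / 2 = k := by omega
      simp only [lab, e1]
      rw [if_neg (by omega)]
      exact Bool.eq_not_iff.2 hk.symm
  · obtain ⟨j, h3, h4⟩ := exists_sep_aux β' β h2 h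
    exact ⟨_, j, false, by omega, h4, h3⟩

theorem rho_sep (β β' : Bn) (hne : β ≠ β') (h1 : β.1.1 < β.2.1.1) (h2 : β'.1.1 < β'.2.1.1) :
    ∃ c, rho β c = 1 ∧ rho β' c = 0 := by
  obtain ⟨i, j, b, -, h3, h4⟩ := exists_sep β β' hne h1 h2
  refine ⟨⟨fun ω => if ω i j = b then 1 else 0, max i j + 1, fun ω ω' h => ?_⟩,
    Subtype.ext (funext fun ω => ?_), Subtype.ext (funext fun ω => ?_)⟩
  · simp only [h i j (by omega) (by omega)]
  · simp [h3]
  · simp [h4]

theorem res_iota {N : ℕ} {β : Bn} (h1 : β.1.1 ≤ β.2.1.1) {ω ω' : Om} :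
    res N β.1.1 (iota β ω) = res N β.1.1 (iota β ω') ↔
      res N β.2.1.1 ω = res N β.2.1.1 ω' := by
  rw [res_eq_iff, res_eq_iff]
  constructor
  · intro h i j hi hj
    rw [← iota_add β ω, ← iota_add β ω']
    exact h _ _ (by omega) hj
  · intro h i j hi hj
    exact iota_congr β fun hi' => h _ _ (by omega) hj

/-- The rows of the matrix of an arrow. -/
noncomputable def Th (a : RA) (b : V × ℕ) : V × ℕ →₀ C := by
  classical
  exact if b = (a.1.2.1, 0) then Finsupp.single a.2 1
    else if a.1.2.1.1 < b.1.1 then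
      Finsupp.embDomain ⟨fun i => (b.1, i), fun _ _ h => (Prod.ext_iff.1 h).2⟩
        ((task b.1.2).2 (a, b.2))
    else 0

/-- The compact module. -/
def P : Type := V → V × ℕ → Om → K

instance : AddCommGroup P := inferInstanceAs (AddCommGroup (V → V × ℕ → Om → K))
instance : Module K P := inferInstanceAs (Module K (V → V × ℕ → Om → K))
instance : TopologicalSpace P := inferInstanceAs (TopologicalSpace (V → V × ℕ → Om → K))
instance : CompactSpace P := inferInstanceAs (CompactSpace (V → V × ℕ → Om → K))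
instance : T2Space P := inferInstanceAs (T2Space (V → V × ℕ → Om → K))
instance : ContinuousAdd P := inferInstanceAs (ContinuousAdd (V → V × ℕ → Om → K))

@[simp] theorem P.add_apply (f g : P) (w b ω) : (f + g) w b ω = f w b ω + g w b ω := rfl
@[simp] theorem P.sub_apply (f g : P) (w b ω) : (f - g) w b ω = f w b ω - g w b ω := rfl
@[simp] theorem P.neg_apply (f : P) (w b ω) : (-f) w b ω = -f w b ω := rfl
@[simp] theorem P.zero_apply (w b ω) : (0 : P) w b ω = 0 := rfl
@[simp] theorem P.smul_apply (k : K) (f : P) (w b ω) : (k • f) w b ω = k * f w b ω := rfl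

theorem P.ext {f g : P} (h : ∀ w b ω, f w b ω = g w b ω) : f = g :=
  funext fun w => funext fun b => funext fun ω => h w b ω

theorem P.sum_apply {ι : Type*} (s : Finset ι) (f : ι → P) (w b ω) :
    (∑ i ∈ s, f i) w b ω = ∑ i ∈ s, f i w b ω := by
  classical
  induction s using Finset.induction_on with
  | empty => rfl
  | insert i s hi ih => rw [Finset.sum_insert hi, Finset.sum_insert hi, P.add_apply, ih]

theorem P.continuous_apply (w b ω) : Continuous fun f : P => f w b ω :=
  (_root_.continuous_apply ω).comp ((_root_.continuous_apply b).comp (_root_.continuous_apply w))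

theorem P.continuous_of {X : Type*} [TopologicalSpace X] {F : X → P}
    (h : ∀ w b ω, Continuous fun x => F x w b ω) : Continuous F :=
  continuous_pi fun w => continuous_pi fun b => continuous_pi fun ω => h w b ω

open Classical in
noncomputable def muE (u : V) (c : C) : Module.End K P where
  toFun f := fun w b ω => if w = u then c.1 ω * f u b ω else 0
  map_add' f g := P.ext fun w b ω => by
    simp only [P.add_apply]; split_ifs <;> simp [mul_add]
  map_smul' k f := P.ext fun w b ω => by
    simp only [P.smul_apply, RingHom.id_apply]; split_ifs <;> simp [mul_left_comm]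

open Classical in
noncomputable def tE (a : RA) : Module.End K P where
  toFun f := fun w b ω => if w = a.1.2.1 then
    ∑ b' ∈ (Th a b).support, (Th a b b').1 ω * f a.1.1 b' (iota a.1 ω) else 0
  map_add' f g := P.ext fun w b ω => by
    simp only [P.add_apply]; split_ifs <;> simp [mul_add, Finset.sum_add_distrib]
  map_smul' k f := P.ext fun w b ω => by
    simp only [P.smul_apply, RingHom.id_apply]
    split_ifs <;> simp [mul_left_comm, Finset.mul_sum]

/-- Valid arrows. -/
abbrev Ar : Type := {a : RA // a.1.1 ∈ par a.1.2.1 ∧ a.2.1 ∈ par a.1.2.1}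

noncomputable def genE : V × C ⊕ Ar → Module.End K P :=
  Sum.elim (fun p => muE p.1 p.2) (fun a => tE a.1)

noncomputable def RR : Subring (Module.End K P) := Subring.closure (Set.range genE)

/-- The ring. -/
def R : Type := RR

noncomputable instance : Ring R := inferInstanceAs (Ring RR)

noncomputable def toEnd : R →+* Module.End K P := RR.subtype

theorem toEnd_inj : Function.Injective toEnd := Subtype.val_injective

noncomputable instance : Module R P := Module.compHom P toEnd

theorem smul_def (r : R) (f : P) : r • f = toEnd r f := rfl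

theorem R.ext {r s : R} (h : ∀ f : P, r • f = s • f) : r = s :=
  toEnd_inj (LinearMap.ext h)

noncomputable def mu0 (u : V) (c : C) : R :=
  ⟨muE u c, Subring.subset_closure ⟨Sum.inl (u, c), rfl⟩⟩

noncomputable def t (a : Ar) : R := ⟨tE a.1, Subring.subset_closure ⟨Sum.inr a, rfl⟩⟩

open Classical in
theorem mu0_smul (u : V) (c : C) (f : P) (w b ω) :
    (mu0 u c • f) w b ω = if w = u then c.1 ω * f u b ω else 0 := rfl

open Classical in
theorem t_smul (a : Ar) (f : P) (w b ω) :
    (t a • f) w b ω = if w = a.1.1.2.1 then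
      ∑ b' ∈ (Th a.1 b).support, (Th a.1 b b').1 ω * f a.1.1.1 b' (iota a.1.1 ω) else 0 := rfl

noncomputable def mu (u : V) : C →+ R where
  toFun := mu0 u
  map_zero' := R.ext fun f => P.ext fun w b ω => by simp [mu0_smul]
  map_add' c c' := R.ext fun f => P.ext fun w b ω => by
    rw [add_smul, P.add_apply, mu0_smul, mu0_smul, mu0_smul]
    split_ifs <;> simp [add_mul]

open Classical in
theorem mu_smul (u : V) (c : C) (f : P) (w b ω) :
    (mu u c • f) w b ω = if w = u then c.1 ω * f u b ω else 0 := rfl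

noncomputable def gen : V × C ⊕ Ar → R := Sum.elim (fun p => mu p.1 p.2) t

theorem mem_closure_gen (r : R) : r ∈ Subring.closure (Set.range gen) := by
  obtain ⟨r, hr⟩ := r
  induction hr using Subring.closure_induction with
  | mem x hx =>
    obtain ⟨i, rfl⟩ := hx
    refine Subring.subset_closure ⟨i, ?_⟩
    rcases i with p | a <;> rfl
  | zero => exact zero_mem _
  | one => exact one_mem _
  | add x y hx' hy' hx hy => exact add_mem hx hy
  | neg x hx' hx => exact neg_mem hx
  | mul x y hx' hy' hx hy => exact mul_mem hx hy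

theorem mu_mul (u : V) (c c' : C) : mu u c * mu u c' = mu u (c * c') :=
  R.ext fun f => P.ext fun w b ω => by
    rw [mul_smul, mu_smul, mu_smul, mu_smul]
    split_ifs <;> simp_all [mul_assoc]

theorem mu_mul_ne {u w : V} (h : u ≠ w) (c c' : C) : mu u c * mu w c' = 0 :=
  R.ext fun f => P.ext fun x b ω => by
    rw [mul_smul, mu_smul, mu_smul, if_neg h]
    simp

theorem t_mu (a : Ar) (c : C) : t a * mu a.1.1.1 c = mu a.1.1.2.1 (rho a.1.1 c) * t a :=
  R.ext fun f => P.ext fun x b ω => by
    rw [mul_smul, mul_smul, t_smul, mu_smul, t_smul]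
    simp only [mu_smul, if_true, rho_apply, Finset.mul_sum, mul_left_comm]

theorem t_mu_ne (a : Ar) {w : V} (h : w ≠ a.1.1.1) (c : C) : t a * mu w c = 0 :=
  R.ext fun f => P.ext fun x b ω => by
    rw [mul_smul, t_smul]
    simp [mu_smul, h.symm]

theorem mu_t_ne (a : Ar) {w : V} (h : w ≠ a.1.1.2.1) (c : C) : mu w c * t a = 0 :=
  R.ext fun f => P.ext fun x b ω => by
    rw [mul_smul, mu_smul, t_smul, if_neg h]
    simp

theorem mu_one_t (a : Ar) : mu a.1.1.2.1 1 * t a = t a :=
  R.ext fun f => P.ext fun x b ω => by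
    rw [mul_smul, mu_smul, t_smul, t_smul]
    split_ifs <;> simp_all

theorem continuous_smul_R (r : R) : Continuous fun f : P => r • f := by
  induction mem_closure_gen r using Subring.closure_induction with
  | mem x hx =>
    obtain ⟨(⟨u, c⟩ | a), rfl⟩ := hx
    · refine P.continuous_of fun w b ω => ?_
      simp only [gen, Sum.elim_inl, mu_smul]
      split_ifs
      · exact continuous_const.mul (P.continuous_apply _ _ _)
      · exact continuous_const
    · refine P.continuous_of fun w b ω => ?_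
      simp only [gen, Sum.elim_inr, t_smul]
      split_ifs
      · exact continuous_finsetSum _ fun b' _ => continuous_const.mul (P.continuous_apply _ _ _)
      · exact continuous_const
  | zero => simpa using continuous_const
  | one => simp only [one_smul]; exact continuous_id
  | add x y _ _ hx hy => simp only [add_smul]; exact hx.add hy
  | neg x _ hx =>
    simp only [neg_smul]
    exact P.continuous_of fun w b ω => ((P.continuous_apply w b ω).comp hx).neg
  | mul x y _ _ hx hy => simp only [mul_smul]; exact hx.comp hy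

theorem algCompact_P : AlgCompact R P := algCompact_of_compact continuous_smul_R

theorem two_eq_zero : (2 : R) = 0 :=
  R.ext fun f => P.ext fun w b ω => by
    rw [two_smul, zero_smul, P.add_apply, P.zero_apply]
    exact CharTwo.add_self_eq_zero _

/-- The data for the opposite ring. -/
noncomputable def rdata : RData Rᵐᵒᵖ V C Bn Ar where
  rank := Prod.fst
  par := par
  src β := β.1
  tgt β := β.2.1
  bn a := a.1.1
  rho := rho
  mu u := (MulOpposite.opAddEquiv : R ≃+ Rᵐᵒᵖ).toAddMonoidHom.comp (mu u)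
  t a := MulOpposite.op (t a)
  hpar _ _ h := rank_lt h
  hsurj := rho_surj
  hsep β β' h h1 h2 := rho_sep β β' h (rank_lt h1) (rank_lt h2)
  mu_mul u c c' := by
    show MulOpposite.op (mu u c) * MulOpposite.op (mu u c') = MulOpposite.op (mu u (c * c'))
    rw [← MulOpposite.op_mul, mu_mul, mul_comm]
  mu_mul_ne u w c c' h := by
    show MulOpposite.op (mu u c) * MulOpposite.op (mu w c') = 0
    rw [← MulOpposite.op_mul, mu_mul_ne h.symm, MulOpposite.op_zero]
  mu_t a c := by
    show MulOpposite.op (mu _ c) * MulOpposite.op (t a) =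
      MulOpposite.op (t a) * MulOpposite.op (mu _ _)
    rw [← MulOpposite.op_mul, ← MulOpposite.op_mul, t_mu]
  mu_t_ne a w c h := by
    show MulOpposite.op (mu w c) * MulOpposite.op (t a) = 0
    rw [← MulOpposite.op_mul, t_mu_ne a h, MulOpposite.op_zero]
  t_mu_ne a w c h := by
    show MulOpposite.op (t a) * MulOpposite.op (mu w c) = 0
    rw [← MulOpposite.op_mul, mu_t_ne a h, MulOpposite.op_zero]
  t_mu_one a := by
    show MulOpposite.op (t a) * MulOpposite.op (mu _ 1) = MulOpposite.op (t a)
    rw [← MulOpposite.op_mul, mu_one_t]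
  hval a := a.2.1
  hgen r := by
    obtain ⟨r, rfl⟩ := MulOpposite.op_surjective r
    induction mem_closure_gen r using Subring.closure_induction with
    | mem x hx =>
      obtain ⟨i, rfl⟩ := hx
      refine Subring.subset_closure ⟨i, ?_⟩
      rcases i with p | a <;> rfl
    | zero => exact zero_mem _
    | one => exact one_mem _
    | add x y hx' hy' hx hy => exact add_mem hx hy
    | neg x hx' hx => exact neg_mem hx
    | mul x y hx' hy' hx hy => rw [MulOpposite.op_mul]; exact mul_mem hy hx
  countA d := by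
    have h1 : (((par d : Set V) ×ˢ (({d} : Set V) ×ˢ (Set.univ : Set (Finset (ℕ × ℕ))))) ×ˢ
        ((par d : Set V) ×ˢ (Set.univ : Set ℕ))).Countable :=
      ((par d).countable_toSet.prod ((Set.countable_singleton d).prod Set.countable_univ)).prod
        ((par d).countable_toSet.prod Set.countable_univ)
    refine (h1.preimage (f := fun a : Ar => a.1) Subtype.val_injective).mono ?_
    rintro a rfl
    exact ⟨⟨a.2.1, rfl, trivial⟩, a.2.2, trivial⟩
  countB d := by
    have h1 : ((par d : Set V) ×ˢ
        (({d} : Set V) ×ˢ (Set.univ : Set (Finset (ℕ × ℕ))))).Countable :=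
      (par d).countable_toSet.prod ((Set.countable_singleton d).prod Set.countable_univ)
    refine h1.mono ?_
    rintro β ⟨h, rfl⟩
    exact ⟨h, rfl, trivial⟩

theorem right_vanishing (N : Type) [AddCommGroup N] [Module Rᵐᵒᵖ N]
    (hN : PureInjective Rᵐᵒᵖ N) (hI : Indec Rᵐᵒᵖ N) :
    ∃ v, ∀ n : N, MulOpposite.op (mu v 1) • n = 0 :=
  rdata.exists_vanishing (algCompact_of_pureInjective hN) hI

end Pool.Agent.Lib.MP_08e64a_al
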