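import Pool.Agent.Lib.MP_08e64a_al.Ring

/-!
Finite stages and compatible base points.
-/

namespace Pool.Agent.Lib.MP_08e64a_al

open Filter

theorem Th_tgt (a : RA) : Th a (a.1.2.1, 0) = Finsupp.single a.2 1 := by
  simp [Th]

theorem Th_of_lt (a : RA) (b : V × ℕ) (h : a.1.2.1.1 < b.1.1) (i : ℕ) :
    Th a b (b.1, i) = (task b.1.2).2 (a, b.2) i := by
  have hb : b ≠ (a.1.2.1, 0) := by
    rintro rfl
    exact lt_irrefl _ h
  simp only [Th, if_neg hb, if_pos h]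
  exact Finsupp.embDomain_apply_self
    (⟨fun i => (b.1, i), fun _ _ h => (Prod.ext_iff.1 h).2⟩ : ℕ ↪ V × ℕ) _ i

theorem Th_ne_zero (a : RA) (b b' : V × ℕ) (hb : b ≠ (a.1.2.1, 0)) (h : Th a b b' ≠ 0) :
    a.1.2.1.1 < b.1.1 ∧ b'.1 = b.1 := by
  simp only [Th, if_neg hb] at h
  split_ifs at h with h1
  · refine ⟨h1, ?_⟩
    by_contra h2
    refine h (Finsupp.embDomain_of_notMem_range _ _ _ ?_)
    rintro ⟨i, rfl⟩
    exact h2 rfl
  · exact absurd rfl h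

theorem eventually_dep (c : C) (r : ℕ) : ∀ᶠ N in atTop, Dep N r c :=
  eventually_atTop.2 (exists_dep c r)

/-- The generators seen at a finite stage. -/
def Gen (F : Finset V) (T : Finset Ar) (N : ℕ) : Set R :=
  {r | ∃ u ∈ F, ∃ c, Dep N u.1 c ∧ r = mu u c} ∪ {r | ∃ a ∈ T, r = t a}

/-- Distinct bundles of `T` are separated inside the window. -/
def Sep (T : Finset Ar) (N : ℕ) : Prop :=
  ∀ a ∈ T, ∀ a' ∈ T, ∀ ω ω',
    res N a.1.1.1.1 (iota a.1.1 ω) = res N a.1.1.1.1 (iota a'.1.1 ω') → a.1.1 = a'.1.1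

theorem exists_stage (A : Finset R) (B : Finset V) :
    ∃ (F : Finset V) (T : Finset Ar), B ⊆ F ∧ (∀ d ∈ F, par d ⊆ F) ∧
      (∀ a ∈ T, a.1.1.2.1 ∈ F) ∧
      ∀ᶠ N in atTop, Sep T N ∧ ∀ r ∈ A, r ∈ Subring.closure (Gen F T N) := by
  classical
  obtain ⟨I, hI⟩ := exists_finset_closure' gen A fun r _ => mem_closure_gen r
  obtain ⟨F, hAF, hF, -⟩ := exists_parClosed Prod.fst par (fun _ _ h => rank_lt h)
    (B ∪ I.toLeft.image Prod.fst ∪ I.toRight.image fun a => a.1.1.2.1)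
  refine ⟨F, I.toRight, fun x hx => hAF (by simp [hx]), hF, fun a ha => hAF
    (Finset.mem_union_right _ (Finset.mem_image_of_mem _ ha)), ?_⟩
  have h1 : ∀ᶠ N in atTop, ∀ p ∈ I.toLeft, Dep N p.1.1 p.2 :=
    (eventually_all_finset _).2 fun p _ => eventually_dep _ _
  have h2 : ∀ᶠ N in atTop, Sep I.toRight N := by
    refine (eventually_all_finset _).2 fun a _ => (eventually_all_finset _).2 fun a' _ => ?_
    by_cases h : a.1.1 = a'.1.1
    · exact Eventually.of_forall fun _ _ _ _ => h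
    · obtain ⟨i, j, b, hi, h3, h4⟩ := exists_sep _ _ h (rank_lt a.2.1) (rank_lt a'.2.1)
      filter_upwards [eventually_gt_atTop j, eventually_ge_atTop a.1.1.2.1.1] with N hj hN ω ω' hω
      have := res_eq_iff.1 hω i j (by omega) hj
      rw [h3, h4] at this
      simp at this
  filter_upwards [h1, h2] with N h1 h2
  refine ⟨h2, fun r hr => Subring.closure_mono ?_ (hI r hr)⟩
  rintro _ ⟨(p | a), hp, rfl⟩
  · have hp' : p ∈ I.toLeft := by simpa using hp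
    exact Or.inl ⟨p.1, hAF (Finset.mem_union_left _ (Finset.mem_union_right _
      (Finset.mem_image_of_mem _ hp'))), p.2, h1 p hp', rfl⟩
  · exact Or.inr ⟨a, by simpa using hp, rfl⟩

theorem exists_bp (F : Finset V) (T : Finset Ar) (N ρ : ℕ) (hT : ∀ a ∈ T, a.1.1.2.1 ∈ F)
    (hsep : Sep T N) (top : V → Win N → Om)
    (htop : ∀ u ∈ F, ∀ ω, res N u.1 (top u (res N u.1 ω)) = res N u.1 ω) :
    ∃ bp : V → Win N → Om, (∀ u ∈ F, ∀ ω, res N u.1 (bp u (res N u.1 ω)) = res N u.1 ω) ∧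
      (∀ u : V, ρ ≤ u.1 → bp u = top u) ∧
      ∀ a ∈ T, a.1.1.2.1.1 ≤ ρ → ∀ ω, bp a.1.1.1 (res N a.1.1.1.1 (iota a.1.1 ω)) =
        iota a.1.1 (bp a.1.1.2.1 (res N a.1.1.2.1.1 ω)) := by
  classical
  obtain ⟨bp, hbp⟩ := exists_rec _ (wf_up (fun u : V => u.1) ρ)
    (fun u (p : Win N → Om) (g : V → Win N → Om) =>
      (∀ a ∈ T, a.1.1.1 = u → a.1.1.2.1.1 ≤ ρ → ∀ ω, p (res N u.1 (iota a.1.1 ω)) =
        iota a.1.1 (g a.1.1.2.1 (res N a.1.1.2.1.1 ω))) ∧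
      ∀ x, (¬ ∃ q : Ar × Om, q.1 ∈ T ∧ q.1.1.1.1 = u ∧ q.1.1.1.2.1.1 ≤ ρ ∧
        x = res N u.1 (iota q.1.1.1 q.2)) → p x = top u x) (by
      intro u g
      refine ⟨fun x => if h : ∃ q : Ar × Om, q.1 ∈ T ∧ q.1.1.1.1 = u ∧ q.1.1.1.2.1.1 ≤ ρ ∧
        x = res N u.1 (iota q.1.1.1 q.2) then
          iota h.choose.1.1.1 (g h.choose.1.1.1.2.1 (res N h.choose.1.1.1.2.1.1 h.choose.2))
        else top u x, fun a ha hu hρ ω => ?_, fun x hx => dif_neg hx⟩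
      have h : ∃ q : Ar × Om, q.1 ∈ T ∧ q.1.1.1.1 = u ∧ q.1.1.1.2.1.1 ≤ ρ ∧
        res N u.1 (iota a.1.1 ω) = res N u.1 (iota q.1.1.1 q.2) := ⟨(a, ω), ha, hu, hρ, rfl⟩
      beta_reduce
      rw [dif_pos h]
      obtain ⟨h1, h2, h3, h4⟩ := h.choose_spec
      generalize h.choose = q at h1 h2 h3 h4 ⊢
      subst hu
      have h5 := hsep a ha _ h1 _ _ h4
      rw [← h5] at h4 ⊢
      rw [(res_iota (rank_lt a.2.1).le).1 h4]) (by
      intro u p g g' hgg h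
      refine ⟨fun a ha hu hρ ω => ?_, h.2⟩
      rw [h.1 a ha hu hρ ω, hgg a.1.1.2.1 ⟨by rw [← hu]; exact rank_lt a.2.1, hρ⟩])
  refine ⟨bp, fun u => ?_, fun u hu => funext fun x => (hbp u).2 x ?_,
    fun a ha hρ ω => (hbp _).1 a ha rfl hρ ω⟩
  · refine (wf_up (fun u : V => u.1) ρ).induction
      (C := fun u => u ∈ F → ∀ ω, res N u.1 (bp u (res N u.1 ω)) = res N u.1 ω) u ?_
    intro u ih hu ω
    by_cases h : ∃ q : Ar × Om, q.1 ∈ T ∧ q.1.1.1.1 = u ∧ q.1.1.1.2.1.1 ≤ ρ ∧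
        res N u.1 ω = res N u.1 (iota q.1.1.1 q.2)
    · obtain ⟨⟨a, ω'⟩, ha, rfl, hρ, h4⟩ := h
      simp only at h4 hρ
      rw [h4, (hbp _).1 a ha rfl hρ ω']
      exact (res_iota (rank_lt a.2.1).le).2 (ih _ ⟨rank_lt a.2.1, hρ⟩ (hT a ha) ω')
    · rw [(hbp u).2 _ h, htop u hu]
  · rintro ⟨⟨a, ω⟩, -, rfl, hρ, -⟩
    have := rank_lt a.2.1
    simp only at hρ hu
    omega

/-- The indicator function of a cell. -/
noncomputable def cell {N : ℕ} (r : ℕ) (x : Win N) : C :=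
  ofWin r fun y => if y = x then 1 else 0

theorem cell_apply {N : ℕ} (r : ℕ) (x : Win N) (ω : Om) :
    (cell r x).1 ω = if res N r ω = x then 1 else 0 := rfl

theorem dep_cell {N : ℕ} (r : ℕ) (x : Win N) : Dep N r (cell r x) := fun ω ω' h => by
  rw [cell_apply, cell_apply, h]

theorem sum_cell (N r : ℕ) : ∑ x : Win N, cell r x = 1 := by
  refine Subtype.ext (funext fun ω => ?_)
  rw [AddSubmonoidClass.coe_finsetSum, Finset.sum_apply]
  simp [cell_apply]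

/-- Finitely supported and locally constant elements of `P`. -/
def Loc (f : P) : Prop :=
  ∃ A : Finset (V × V × ℕ), (∀ u b ω, (u, b) ∉ A → f u b ω = 0) ∧ ∀ u b, f u b ∈ CC

open Classical in
/-- The distinguished element at the vertex `d`. -/
noncomputable def Yd (d : V) : P := fun w b _ => if w = d ∧ b = (d, 0) then 1 else 0

theorem loc_Yd (d : V) : Loc (Yd d) := by
  refine ⟨{(d, d, 0)}, fun u b ω h => ?_, fun u b => ⟨0, fun _ _ _ => rfl⟩⟩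
  simp only [Yd]
  rw [if_neg]
  rintro ⟨rfl, rfl⟩
  exact h (by simp)

theorem loc_zero : Loc 0 := ⟨∅, fun _ _ _ _ => rfl, fun _ _ => ⟨0, fun _ _ _ => rfl⟩⟩

theorem t_smul_tgt (a : Ar) (f : P) (ω : Om) :
    (t a • f) a.1.1.2.1 (a.1.1.2.1, 0) ω = f a.1.1.1 a.1.2 (iota a.1.1 ω) := by
  rw [t_smul, if_pos rfl, Th_tgt, Finsupp.support_single _ one_ne_zero]
  simp

theorem t_smul_eq_Yd (a : Ar) (f : P) (k : K)
    (h1 : ∀ ω, f a.1.1.1 a.1.2 (iota a.1.1 ω) = k)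
    (h2 : ∀ b ω, a.1.1.2.1.1 < b.1.1 → f a.1.1.1 b ω = 0) : t a • f = k • Yd a.1.1.2.1 := by
  refine P.ext fun w b ω => ?_
  by_cases hw : w = a.1.1.2.1
  · subst hw
    by_cases hb : b = (a.1.1.2.1, 0)
    · subst hb
      rw [t_smul_tgt, h1]
      simp [Yd]
    · rw [t_smul, if_pos rfl, Finset.sum_eq_zero]
      · simp [Yd, hb]
      · intro b' hb'
        obtain ⟨h3, h4⟩ := Th_ne_zero _ _ _ hb (Finsupp.mem_support_iff.1 hb')
        rw [h2 b' _ (by rw [h4]; exact h3), mul_zero]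
  · rw [t_smul, if_neg hw]
    simp [Yd, hw]

theorem exists_smul_Yd {v d : V} (h : v ∈ par d) : ∃ r : R, r • Yd v = Yd d := by
  let a : Ar := ⟨((v, d, ∅), v, 0), h, h⟩
  refine ⟨t a, ?_⟩
  rw [t_smul_eq_Yd a (Yd v) 1, one_smul]
  · intro ω; simp [Yd, a]
  · intro b ω hb
    simp only [Yd]
    rw [if_neg]
    rintro ⟨-, rfl⟩
    have := rank_lt h
    simp only [a] at hb
    omega

end Pool.Agent.Lib.MP_08e64a_al
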